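import Pool.Agent.Helper71.AF.Div
import Pool.Agent.Helper7.Cohomology

/-!
Number fields in division algebras, and a criterion for a number field to be a CM field.
-/

open scoped ComplexConjugate

namespace Pool.Agent.Helper71.AF

open Module NumberField Pool.Agent.GPC

lemma field_of_subfield {D : Type} [DivisionRing D] [CharZero D] [Module.Finite ℚ D]
    (L : Subfield D) (hL : ∀ x ∈ L, ∀ y ∈ L, x * y = y * x) :
    ∃ (K : Type) (_ : Field K) (_ : NumberField K) (e : K →+* D), ∀ z, z ∈ L ↔ ∃ x, e x = z := by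
  let F : Field L :=
    { (inferInstance : DivisionRing L) with
      mul_comm := fun x y => Subtype.ext (hL x x.2 y y.2) }
  have h0 : CharZero L := ⟨fun a b hab => by
    have h1 := congrArg (fun x : L => (x : D)) hab
    have h2 : ((a : ℕ) : D) = b := by exact_mod_cast h1
    exact_mod_cast h2⟩
  have h1 : FiniteDimensional ℚ L := by
    let ι : L →ₗ[ℚ] D := (L.subtype : L →+* D).toAddMonoidHom.toRatLinearMap
    have hι : Function.Injective ι := Subtype.val_injective
    exact Module.Finite.of_injective ι hι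
  have h2 : NumberField L := ⟨⟩
  refine ⟨L, F, h2, L.subtype, fun z => ⟨fun hz => ⟨⟨z, hz⟩, rfl⟩, ?_⟩⟩
  rintro ⟨x, rfl⟩
  exact x.2

/-- the three cases -/
theorem tri {D : Type} [Ring D] [IsDomain D] [Algebra ℚ D] [hfin : Module.Finite ℚ D] (s : D → D)
    (h : AInv s) : ∃ (K : Type) (_ : Field K) (_ : NumberField K) (e : K →+* D),
    ((∀ x, s (e x) = e x) ∧ (∀ f, (∀ x, e x * f = f * e x) → ∃ x, f = e x)) ∨
    ((∀ x, ∃ y, s (e x) = e y) ∧ (∃ i, i ≠ 0 ∧ s (e i) = - e i) ∧
      (∀ f, (∀ x, s (e x) = e x → e x * f = f * e x) → ∃ x, f = e x)) ∨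
    ((∀ x, ∃ y, s (e x) = e y) ∧ (∃ i, i ≠ 0 ∧ s (e i) = - e i) ∧
      ∃ j b, b ≠ 0 ∧ s j = -j ∧ j * j = e b ∧ (∀ x, j * e x = s (e x) * j) ∧
      (∀ f, (∀ x, s (e x) = e x → e x * f = f * e x) → ∃ x y, f = e x + e y * j)) := by
  let _ : DivisionRing D := divisionRingOfFiniteDimensional ℚ D
  have h0 : CharZero D := charZero_of_injective_algebraMap (algebraMap ℚ D).injective
  have h1 : @Module.Finite ℚ D _ _ (DivisionRing.toRatAlgebra : Algebra ℚ D).toModule := by
    have h2 : (DivisionRing.toRatAlgebra : Algebra ℚ D).toModule = Algebra.toModule :=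
      Subsingleton.elim _ _
    rw [h2]
    exact hfin
  obtain ⟨T, hself, hcomm, hcase⟩ := h.trichotomy
  rcases hcase with hC | ⟨L, hTL, hLc, hsL, ⟨i, hiL, hi0, hsi⟩, hcase⟩
  · obtain ⟨K, _, _, e, he⟩ := field_of_subfield T hcomm
    refine ⟨K, _, ‹_›, e, Or.inl ⟨fun x => hself _ ((he _).mpr ⟨x, rfl⟩), fun f hf => ?_⟩⟩
    have h2 : f ∈ T := by
      apply hC
      intro x hx
      obtain ⟨y, rfl⟩ := (he x).mp hx
      exact hf y
    obtain ⟨y, hy⟩ := (he f).mp h2
    exact ⟨y, hy.symm⟩
  · obtain ⟨K, _, _, e, he⟩ := field_of_subfield L hLc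
    have hstable : ∀ x, ∃ y, s (e x) = e y := by
      intro x
      obtain ⟨y, hy⟩ := (he _).mp (hsL _ ((he _).mpr ⟨x, rfl⟩))
      exact ⟨y, hy.symm⟩
    have hcomT : ∀ f, (∀ x, s (e x) = e x → e x * f = f * e x) → ∀ x ∈ T, x * f = f * x := by
      intro f hf x hx
      obtain ⟨y, rfl⟩ := (he x).mp (hTL hx)
      exact hf y (hself _ hx)
    have hi : ∃ i, i ≠ 0 ∧ s (e i) = - e i := by
      obtain ⟨y, rfl⟩ := (he i).mp hiL
      refine ⟨y, ?_, hsi⟩
      rintro rfl
      exact hi0 (map_zero e)
    rcases hcase with hC | ⟨j, hsj, hj0, hjj, hjx, hC⟩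
    · refine ⟨K, _, ‹_›, e, Or.inr (Or.inl ⟨hstable, hi, fun f hf => ?_⟩)⟩
      obtain ⟨y, hy⟩ := (he f).mp (hC f (hcomT f hf))
      exact ⟨y, hy.symm⟩
    · obtain ⟨b, hb⟩ := (he _).mp hjj
      refine ⟨K, _, ‹_›, e, Or.inr (Or.inr ⟨hstable, hi, j, b, ?_, hsj, hb.symm, fun x => ?_,
        fun f hf => ?_⟩)⟩
      · rintro rfl
        rw [map_zero] at hb
        exact hj0 (mul_self_eq_zero.mp hb.symm)
      · exact hjx _ ((he _).mpr ⟨x, rfl⟩)
      · obtain ⟨x, hx, y, hy, hf2⟩ := hC f (hcomT f hf)
        obtain ⟨x', rfl⟩ := (he x).mp hx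
        obtain ⟨y', rfl⟩ := (he y).mp hy
        exact ⟨x', y', hf2⟩

section cm

variable {K : Type} [Field K] [NumberField K] (c : K → K)
  (hc : ∀ (σ : K →+* ℂ) x, σ (c x) = conj (σ x)) (i : K) (hi : i ≠ 0) (hci : c i = -i)

include hc hi hci in
lemma isCM : IsCMField K := by
  classical
  obtain ⟨σ0⟩ : Nonempty (K →+* ℂ) := inferInstance
  have hcinv : ∀ x, c (c x) = x := fun x => σ0.injective (by rw [hc, hc, Complex.conj_conj])
  have hcadd : ∀ x y, c (x + y) = c x + c y := fun x y => σ0.injective (by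
    rw [hc, map_add, map_add, map_add, hc, hc])
  have hcmul : ∀ x y, c (x * y) = c x * c y := fun x y => σ0.injective (by
    rw [hc, map_mul, map_mul, map_mul, hc, hc])
  have hcneg : ∀ x, c (-x) = - c x := fun x => σ0.injective (by
    rw [hc, map_neg, map_neg, map_neg, hc])
  have hmem : ∀ x : K, x ∈ maximalRealSubfield K ↔ c x = x := by
    intro x
    rw [mem_maximalRealSubfield_iff]
    constructor
    · intro h
      apply σ0.injective
      rw [hc]
      exact h σ0
    · intro h φ
      have h1 := hc φ x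
      rw [h] at h1
      exact h1.symm
  have htc : IsTotallyComplex K := by
    refine ⟨fun w => ?_⟩
    rw [InfinitePlace.isComplex_iff]
    intro hreal
    have h1 : conj (w.embedding i) = w.embedding i := by
      have h2 := congrArg (fun φ : K →+* ℂ => φ i) hreal
      exact h2
    rw [← hc, hci, map_neg] at h1
    have h2 : w.embedding i = 0 := by
      have h3 : (2 : ℂ) * w.embedding i = 0 := by linear_combination (-1 : ℂ) * h1
      exact (mul_eq_zero.mp h3).resolve_left two_ne_zero
    exact hi ((map_eq_zero _).mp h2)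
  have hquad : Algebra.IsQuadraticExtension (maximalRealSubfield K) K := by
    have hli : LinearIndependent (maximalRealSubfield K) ![(1 : K), i] := by
      rw [LinearIndependent.pair_iff]
      intro s t hst
      rw [Algebra.smul_def, Algebra.smul_def, mul_one] at hst
      have hs : c (algebraMap (maximalRealSubfield K) K s) =
        algebraMap (maximalRealSubfield K) K s := (hmem _).mp s.2
      have ht : c (algebraMap (maximalRealSubfield K) K t) =
        algebraMap (maximalRealSubfield K) K t := (hmem _).mp t.2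
      have h1 := congrArg c hst
      have hc0 : c 0 = 0 := σ0.injective (by rw [hc, map_zero, map_zero])
      rw [hcadd, hcmul, hs, ht, hci, hc0] at h1
      have h2 : (2 : K) * algebraMap (maximalRealSubfield K) K s = 0 := by
        linear_combination hst + h1
      have h3 : (2 : K) * (algebraMap (maximalRealSubfield K) K t * i) = 0 := by
        linear_combination hst - h1
      have h4 := (mul_eq_zero.mp h2).resolve_left two_ne_zero
      have h5 := (mul_eq_zero.mp ((mul_eq_zero.mp h3).resolve_left two_ne_zero)).resolve_right hi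
      exact ⟨(map_eq_zero _).mp h4, (map_eq_zero _).mp h5⟩
    have hspan : ⊤ ≤ Submodule.span (maximalRealSubfield K) (Set.range ![(1 : K), i]) := by
      intro x _
      have h1 : (x + c x) / 2 ∈ maximalRealSubfield K := by
        rw [hmem, div_eq_mul_inv, hcmul, hcadd, hcinv]
        have h3 : c (2⁻¹ : K) = 2⁻¹ := σ0.injective (by
          rw [hc, map_inv₀, map_ofNat, map_inv₀, map_ofNat])
        rw [h3, add_comm]
      have h2 : (x - c x) / (2 * i) ∈ maximalRealSubfield K := by
        rw [hmem, div_eq_mul_inv, hcmul, sub_eq_add_neg, hcadd, hcneg, hcinv]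
        have h3 : c ((2 * i)⁻¹ : K) = - (2 * i)⁻¹ := σ0.injective (by
          rw [hc, map_inv₀, map_mul, map_ofNat, map_inv₀, map_mul, map_ofNat, ← hc, hci, map_neg,
            map_neg, map_inv₀, map_mul, map_ofNat, mul_neg, inv_neg])
        rw [h3]; ring
      have h3 : x = (⟨_, h1⟩ : maximalRealSubfield K) • (1 : K) +
          (⟨_, h2⟩ : maximalRealSubfield K) • i := by
        rw [Algebra.smul_def, Algebra.smul_def]
        change x = (x + c x) / 2 * 1 + (x - c x) / (2 * i) * i
        field_simp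
        ring
      rw [h3]
      exact Submodule.add_mem _ (Submodule.smul_mem _ _ (Submodule.subset_span ⟨0, rfl⟩))
        (Submodule.smul_mem _ _ (Submodule.subset_span ⟨1, rfl⟩))
    have hb : Module.finrank (maximalRealSubfield K) K = 2 := by
      rw [Module.finrank_eq_card_basis (Basis.mk hli hspan), Fintype.card_fin]
    exact { finrank_eq_two' := hb }
  exact { }

include hc in
lemma cmConj_eq [IsCMField K] (x : K) : cmConj K x = c x := by
  obtain ⟨σ0⟩ : Nonempty (K →+* ℂ) := inferInstance
  apply σ0.injective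
  rw [hc]
  exact IsCMField.complexEmbedding_complexConj K σ0 x

end cm

/-- a number field all of whose embeddings are real is totally real -/
lemma isTotallyReal_of {K : Type} [Field K] (h : ∀ (σ : K →+* ℂ) x, conj (σ x) = σ x) :
    IsTotallyReal K := by
  refine ⟨fun w => ?_⟩
  rw [InfinitePlace.isReal_iff]
  exact RingHom.ext fun x => h w.embedding x

end Pool.Agent.Helper71.AF
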