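import Pool.Agent.Helper71.AF.Alg
import Pool.Agent.Helper71.AF.Fld

/-!
The three types of simple abelian varieties.
-/

open scoped ComplexConjugate

namespace Pool.Agent.Helper71.AF

open Module NumberField Pool.Agent.GPC Pool.Agent.Helper7

/-- common eigenvectors -/
lemma exists_eig (A : AbVar) (hg : 0 < A.g) {K : Type} [Field K] [NumberField K]
    (ρ : K →+* Module.End ℂ A.H1) (hρ : ∀ x, A.IsEnd (ρ x)) (σ : K →+* ℂ) :
    ∃ v : A.H1, v ≠ 0 ∧ ∀ x, ρ x v = σ x • v := by
  have hQ : ∀ x, ∀ v ∈ (pData A).Q, ρ x v ∈ (pData A).Q :=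
    fun x v hv => (isDRB_of_isEnd A _ (hρ x)).rat v hv
  obtain ⟨r, hr⟩ := exists_rank (pData A) ρ hQ
  obtain ⟨lam, -, -, eb, heb⟩ := exists_Kbasis (pData A) ρ hQ r hr
  have hr0 : 0 < r := by
    rw [card_index] at hr
    rcases Nat.eq_zero_or_pos r with h | h
    · rw [h, mul_zero] at hr
      omega
    · exact h
  refine ⟨eb (σ, ⟨0, hr0⟩), eb.ne_zero _, fun x => ?_⟩
  rw [heb]
  have h1 := congrArg (fun f : Module.End ℂ A.H1 => f (lam ⟨0, hr0⟩)) (rho_mul_proj ρ x σ)
  exact h1

lemma H1_subsingleton (A : AbVar) (hg : A.g = 0) (u v : A.H1) : u = v := by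
  funext j
  rcases j with j | j
  · exact absurd j.2 (by omega)
  · exact absurd j.2 (by omega)

lemma realType_of_zero (A : AbVar) (hg : A.g = 0) : IsRealType A ℚ := by
  refine ⟨inferInstance, ⟨{
    ρ := fun _ v => v
    one := fun _ => rfl
    mul := fun _ _ _ => rfl
    add := fun _ _ _ => H1_subsingleton A hg _ _
    endo := fun _ => ⟨⟨fun _ _ => rfl, fun _ _ => rfl⟩, fun _ h => h, fun _ h => h, fun _ h => h⟩
    rosati := fun _ _ _ => rfl
    centralizer := fun _ _ _ => ⟨0, fun _ => H1_subsingleton A hg _ _⟩ }⟩⟩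

/-- the Rosati involution -/
lemma exists_star (A : AbVar) : ∃ s : DD (pData A) → DD (pData A), AInv s ∧
    ∀ (f : DD (pData A)) u v, (pData A).ψ ((f : Module.End ℂ A.H1) u) v =
      (pData A).ψ u ((s f : Module.End ℂ A.H1) v) := by
  have hadj : ∀ f : DD (pData A), ∃ f' : DD (pData A), ∀ u v,
      (pData A).ψ ((f : Module.End ℂ A.H1) u) v = (pData A).ψ u ((f' : Module.End ℂ A.H1) v) := by
    intro f
    obtain ⟨f', h1, h2⟩ := exists_adj (pData A) Complex.two_pi_I_ne_zero f f.2
    exact ⟨⟨f', h1⟩, h2⟩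
  choose s hs using hadj
  have huniq : ∀ f g : DD (pData A), (∀ u v, (pData A).ψ ((f : Module.End ℂ A.H1) u) v =
      (pData A).ψ u ((g : Module.End ℂ A.H1) v)) → s f = g := by
    intro f g h
    apply Subtype.ext
    apply LinearMap.ext
    intro v
    rw [← sub_eq_zero]
    apply ndr (pData A)
    intro u
    rw [map_sub, ← hs, ← h, sub_self]
  refine ⟨s, ⟨fun x y => ?_, fun x y => ?_, fun x => ?_⟩, hs⟩
  · apply huniq
    intro u v
    change (pData A).ψ ((x : Module.End ℂ A.H1) u + (y : Module.End ℂ A.H1) u) v =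
      (pData A).ψ u ((s x : Module.End ℂ A.H1) v + (s y : Module.End ℂ A.H1) v)
    rw [map_add, LinearMap.add_apply, map_add, hs, hs]
  · apply huniq
    intro u v
    change (pData A).ψ ((x : Module.End ℂ A.H1) ((y : Module.End ℂ A.H1) u)) v =
      (pData A).ψ u ((s y : Module.End ℂ A.H1) ((s x : Module.End ℂ A.H1) v))
    rw [hs, hs]
  · apply huniq
    intro u v
    rw [(pData A).hψalt, ← hs, (pData A).hψalt, neg_neg]

lemma isDomain_DD (A : AbVar) (hg : 0 < A.g) (hs : A.IsSimple) : IsDomain (DD (pData A)) := by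
  have hnt : Nontrivial (DD (pData A)) := by
    refine ⟨⟨1, 0, fun h => ?_⟩⟩
    have h1 := congrArg (fun f : DD (pData A) => (f : Module.End ℂ A.H1)
      (Pi.single (Sum.inl ⟨0, hg⟩) 1) (Sum.inl ⟨0, hg⟩)) h
    change (Pi.single (Sum.inl ⟨0, hg⟩) (1 : ℂ) : A.H1) (Sum.inl ⟨0, hg⟩) = 0 at h1
    rw [Pi.single_eq_same] at h1
    exact one_ne_zero h1
  have hnz : NoZeroDivisors (DD (pData A)) := by
    refine ⟨fun {a b} hab => ?_⟩
    by_cases ha : a = 0
    · exact Or.inl ha
    right
    have hinj : Function.Injective (a : Module.End ℂ A.H1) := by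
      apply hs _ (isEnd_of_isDRB A _ a.2)
      by_contra hne
      push Not at hne
      apply ha
      apply Subtype.ext
      exact LinearMap.ext hne
    apply Subtype.ext
    apply LinearMap.ext
    intro v
    apply hinj
    have h1 := congrArg (fun f : DD (pData A) => (f : Module.End ℂ A.H1) v) hab
    change (a : Module.End ℂ A.H1) ((b : Module.End ℂ A.H1) v) = 0 at h1
    rw [h1]
    exact (map_zero _).symm
  exact NoZeroDivisors.to_isDomain (DD (pData A))

end Pool.Agent.Helper71.AF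

namespace Pool.Agent.GPC

open Module NumberField Pool.Agent.Helper7 Pool.Agent.Helper71.AF

/-- A simple abelian variety is of real type, of Hermitian type, or of quaternionic type. -/
theorem simple_cases (A : AbVar) (hs : A.IsSimple) :
    ∃ (K : Type) (_ : Field K) (_ : NumberField K), IsRealType A K ∨
      (∃ (_ : NumberField.IsCMField K) (ρ : K → A.H1 → A.H1), A.IsHermMult K ρ) ∨
      (∃ (_ : NumberField.IsCMField K) (ρ : K → A.H1 → A.H1) (j : A.H1 → A.H1) (b : K),
        A.IsQuatMult K ρ j b) := by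
  rcases Nat.eq_zero_or_pos A.g with hg | hg
  · exact ⟨ℚ, inferInstance, inferInstance, Or.inl (realType_of_zero A hg)⟩
  have hdom := isDomain_DD A hg hs
  have hfin := finite_DD (pData A)
  obtain ⟨s, hinv, hadj⟩ := exists_star A
  obtain ⟨K, hK1, hK2, e, hcase⟩ := tri s hinv
  obtain ⟨ρ, hρ⟩ : ∃ ρ : K →+* Module.End ℂ A.H1, ∀ x, ρ x = e x :=
    ⟨(DD (pData A)).val.toRingHom.comp e, fun _ => rfl⟩
  have hend : ∀ x, A.IsEnd (ρ x) := fun x => by
    rw [hρ]; exact isEnd_of_isDRB A _ (e x).2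
  have hendD : ∀ f : DD (pData A), A.IsEnd (f : Module.End ℂ A.H1) :=
    fun f => isEnd_of_isDRB A _ f.2
  -- elements of `D`
  have hD : ∀ f, A.IsEnd f → ∃ F : DD (pData A), ∀ v, (F : Module.End ℂ A.H1) v = f v := by
    intro f hf
    exact ⟨⟨IsLinearMap.mk' f hf.linear, isDRB_of_isEnd A _ hf⟩, fun _ => rfl⟩
  have hmulD : ∀ (f g : DD (pData A)) v, ((f * g : DD (pData A)) : Module.End ℂ A.H1) v =
    (f : Module.End ℂ A.H1) ((g : Module.End ℂ A.H1) v) := fun _ _ _ => rfl
  have haddD : ∀ (f g : DD (pData A)) v, ((f + g : DD (pData A)) : Module.End ℂ A.H1) v =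
    (f : Module.End ℂ A.H1) v + (g : Module.End ℂ A.H1) v := fun _ _ _ => rfl
  have hextD : ∀ f g : DD (pData A), (∀ v, (f : Module.End ℂ A.H1) v =
      (g : Module.End ℂ A.H1) v) → f = g := fun f g h => Subtype.ext (LinearMap.ext h)
  -- conjugation
  have hconj : ∀ x y, s (e x) = e y → ∀ σ : K →+* ℂ, σ y = conj (σ x) := by
    intro x y hxy σ
    obtain ⟨v, hv, hev⟩ := exists_eig A hg ρ hend σ
    refine eig_conj A (ρ x) (ρ y) (hend x) (hend y) (fun u v => ?_) hv (hev x) (hev y)
    rw [hρ, hρ, ← hxy]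
    exact hadj (e x) u v
  refine ⟨K, hK1, hK2, ?_⟩
  have hone : ∀ v, ρ 1 v = v := fun v => by rw [map_one]; rfl
  have hmul : ∀ x y v, ρ (x * y) v = ρ x (ρ y v) := fun x y v => by rw [map_mul]; rfl
  have hadd : ∀ x y v, ρ (x + y) v = ρ x v + ρ y v := fun x y v => by rw [map_add]; rfl
  rcases hcase with ⟨hself, hcen⟩ | ⟨hst, ⟨i, hi0, hsi⟩, hcen⟩ | ⟨hst, ⟨i, hi0, hsi⟩, hcen⟩
  · left
    refine ⟨isTotallyReal_of fun σ x => (hconj x x (hself x) σ).symm, ⟨{
      ρ := fun x v => ρ x v
      one := hone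
      mul := hmul
      add := hadd
      endo := hend
      rosati := fun x u v => ?_
      centralizer := fun f hf hc => ?_ }⟩⟩
    · have h1 := hadj (e x) u v
      rw [hself x] at h1
      rw [hρ]
      exact h1
    · obtain ⟨F, hF⟩ := hD f hf
      obtain ⟨x, hx⟩ := hcen F (fun x => hextD _ _ fun v => by
        rw [hmulD, hmulD, hF, hF, ← hρ, hc])
      exact ⟨x, fun v => by rw [← hF, hx, hρ]⟩
  · right; left
    choose c hc using hst
    have hcc : ∀ (σ : K →+* ℂ) x, σ (c x) = conj (σ x) := fun σ x => hconj x (c x) (hc x) σ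
    have einj : Function.Injective e := e.injective
    have hci : c i = -i := einj (by rw [← hc, hsi, map_neg])
    have hCM : IsCMField K := isCM c hcc i hi0 hci
    have hcm : ∀ x, cmConj K x = c x := cmConj_eq c hcc
    refine ⟨hCM, fun x v => ρ x v, {
      one := hone
      mul := hmul
      add := hadd
      endo := hend
      rosati := fun x u v => ?_
      centralizer := fun f hf hcom => ?_ }⟩
    · rw [hcm, hρ, hρ, ← hc]
      exact hadj (e x) u v
    · obtain ⟨F, hF⟩ := hD f hf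
      obtain ⟨x, hx⟩ := hcen F (fun x hx => hextD _ _ fun v => by
        rw [hmulD, hmulD, hF, hF, ← hρ, hcom x (by rw [hcm]; exact einj (by rw [← hc, hx]))])
      exact ⟨x, fun v => by rw [← hF, hx, hρ]⟩
  · right; right
    obtain ⟨j, b, hb0, hsj, hjj, hjx, hcen⟩ := hcen
    choose c hc using hst
    have hcc : ∀ (σ : K →+* ℂ) x, σ (c x) = conj (σ x) := fun σ x => hconj x (c x) (hc x) σ
    have einj : Function.Injective e := e.injective
    have hci : c i = -i := einj (by rw [← hc, hsi, map_neg])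
    have hCM : IsCMField K := isCM c hcc i hi0 hci
    have hcm : ∀ x, cmConj K x = c x := cmConj_eq c hcc
    refine ⟨hCM, fun x v => ρ x v, fun v => (j : Module.End ℂ A.H1) v, b, {
      one := hone
      mul := hmul
      add := hadd
      endo := hend
      endo_j := hendD j
      conj_j := fun x v => ?_
      sq_j := fun v => ?_
      rosati := fun x u v => ?_
      rosati_j := fun u v => ?_
      ne_zero := hb0
      centralizer := fun f hf hcom => ?_ }⟩
    · rw [hcm, hρ, hρ, ← hc, ← hmulD, ← hmulD, hjx]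
    · rw [hρ, ← hjj, hmulD]
    · rw [hcm, hρ, hρ, ← hc]
      exact hadj (e x) u v
    · have h1 := hadj j u v
      rw [hsj] at h1
      have h2 : ((-j : DD (pData A)) : Module.End ℂ A.H1) v = - (j : Module.End ℂ A.H1) v := rfl
      rw [h2, map_neg] at h1
      exact h1
    · obtain ⟨F, hF⟩ := hD f hf
      obtain ⟨x, y, hx⟩ := hcen F (fun x hx => hextD _ _ fun v => by
        rw [hmulD, hmulD, hF, hF, ← hρ, hcom x (by rw [hcm]; exact einj (by rw [← hc, hx]))])
      exact ⟨x, y, fun v => by rw [← hF, hx, haddD, hmulD, hρ, hρ]⟩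

end Pool.Agent.GPC
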