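import Pool.Agent.Helper7.AF.Defs
import Pool.Agent.Helper7.Bridge3

/-!
The algebra of endomorphisms (tensor the rational numbers) of an abelian variety, its involution,
and the positivity of the involution.
-/

open scoped ComplexConjugate

namespace Pool.Agent.Helper71.AF

open Module NumberField Pool.Agent.GPC Pool.Agent.Helper7

section solve

/-- coordinates in a subfield -/
lemma coord_mem {ι V F : Type*} [Fintype ι] [DecidableEq ι] [AddCommGroup V] [Module ℂ V]
    (b : Basis ι ℂ V) (ψ : V →ₗ[ℂ] V →ₗ[ℂ] ℂ) [Field F] (φ : F →+* ℂ) (c : ℂ) (hc : c ≠ 0)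
    (hG : ∀ i j, ∃ q, ψ (b i) (b j) = c * φ q) (hnd : ∀ v, (∀ u, ψ u v = 0) → v = 0)
    (x : V) (hx : ∀ i, ∃ q, ψ (b i) x = c * φ q) : ∀ j, ∃ q, b.repr x j = φ q := by
  choose G hG using hG
  choose a ha using hx
  have hexp : ∀ (y : ι → ℂ) i, ψ (b i) (∑ j, y j • b j) =
      c * (((Matrix.of G).map φ).mulVec y) i := by
    intro y i
    rw [map_sum, Matrix.mulVec, dotProduct, Finset.mul_sum]
    refine Finset.sum_congr rfl fun j _ => ?_
    rw [map_smul, hG, smul_eq_mul, Matrix.map_apply, Matrix.of_apply]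
    ring
  have hinj : ∀ y : ι → ℂ, ((Matrix.of G).map φ).mulVec y = 0 → y = 0 := by
    intro y hy
    have h1 : ∑ j, y j • b j = 0 := by
      apply hnd
      intro u
      obtain ⟨w, hw⟩ : ∃ w, w = ∑ j, y j • b j := ⟨_, rfl⟩
      rw [← hw, ← b.sum_repr u, map_sum, LinearMap.sum_apply]
      refine Finset.sum_eq_zero fun i _ => ?_
      rw [map_smul, LinearMap.smul_apply, hw, hexp, hy, Pi.zero_apply, mul_zero, smul_zero]
    have h2 := Fintype.linearIndependent_iff.mp b.linearIndependent y h1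
    exact funext h2
  have hdet : (Matrix.of G).det ≠ 0 := by
    intro h
    obtain ⟨v, hv, hv0⟩ := Matrix.exists_mulVec_eq_zero_iff.mpr h
    apply hv
    have h1 : ((Matrix.of G).map φ).mulVec (fun i => φ (v i)) = 0 := by
      funext i
      have h2 := congrArg φ (congrFun hv0 i)
      simp only [Matrix.mulVec, dotProduct, map_sum, map_mul, Pi.zero_apply, map_zero] at h2
      simp only [Matrix.mulVec, dotProduct, Matrix.map_apply, Pi.zero_apply]
      exact h2
    have h2 := hinj _ h1
    funext i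
    have h3 := congrFun h2 i
    simpa using h3
  have hu : IsUnit (Matrix.of G).det := isUnit_iff_ne_zero.mpr hdet
  obtain ⟨y0, hy0⟩ : ∃ y0 : ι → F, y0 = (Matrix.of G)⁻¹.mulVec a := ⟨_, rfl⟩
  have h1 : (Matrix.of G).mulVec y0 = a := by
    rw [hy0, Matrix.mulVec_mulVec, Matrix.mul_nonsing_inv _ hu, Matrix.one_mulVec]
  have h2 : ((Matrix.of G).map φ).mulVec (fun i => φ (y0 i)) = fun i => φ (a i) := by
    funext i
    have h3 := congrArg φ (congrFun h1 i)
    simp only [Matrix.mulVec, dotProduct, map_sum, map_mul] at h3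
    simp only [Matrix.mulVec, dotProduct, Matrix.map_apply]
    exact h3
  have h3 : ((Matrix.of G).map φ).mulVec (fun j => b.repr x j) = fun i => φ (a i) := by
    funext i
    have h4 := hexp (fun j => b.repr x j) i
    rw [b.sum_repr, ha] at h4
    exact (mul_left_cancel₀ hc h4).symm
  have h4 : (fun j => b.repr x j) - (fun i => φ (y0 i)) = 0 := by
    apply hinj
    rw [Matrix.mulVec_sub, h2, h3, sub_self]
  intro j
  exact ⟨y0 j, sub_eq_zero.mp (congrFun h4 j)⟩

end solve

section adjoint

variable {κ : Type} [Fintype κ] [DecidableEq κ] {ϖ : ℂ} (P : PData κ ϖ)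

lemma ndr (v : κ → ℂ) (h : ∀ u, P.ψ u v = 0) : v = 0 := by
  apply P.hψnd
  intro u
  rw [P.hψalt, h, neg_zero]

lemma mem_Q_of_coord (x : κ → ℂ) (h : ∀ j, ∃ q : ℚ, P.bB.repr x j = q) : x ∈ P.Q := by
  rw [← P.bB.sum_repr x]
  refine Submodule.sum_mem _ fun j _ => ?_
  obtain ⟨q, hq⟩ := h j
  rw [hq]
  exact P.rat_smul_mem q _ (P.basis_mem j)

/-- the adjoint of a de Rham-Betti endomorphism -/
lemma exists_adj (hϖ : ϖ ≠ 0) (f : Module.End ℂ (κ → ℂ)) (hf : IsDRB P P f) :
    ∃ f' : Module.End ℂ (κ → ℂ), IsDRB P P f' ∧ ∀ u v, P.ψ (f u) v = P.ψ u (f' v) := by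
  classical
  obtain ⟨Ψ, hΨ⟩ : ∃ Ψ : (κ → ℂ) ≃ₗ[ℂ] Module.Dual ℂ (κ → ℂ), ∀ u v, Ψ v u = P.ψ u v := by
    refine ⟨LinearMap.linearEquivOfInjective P.ψ.flip ?_ Subspace.dual_finrank_eq.symm,
      fun u v => rfl⟩
    rw [← LinearMap.ker_eq_bot, LinearMap.ker_eq_bot']
    intro v hv
    apply ndr P
    intro u
    have := congrArg (fun g => g u) hv
    exact this
  obtain ⟨f', hf'⟩ : ∃ f' : Module.End ℂ (κ → ℂ), ∀ u v, P.ψ (f u) v = P.ψ u (f' v) := by
    refine ⟨Ψ.symm.toLinearMap ∘ₗ (f.dualMap ∘ₗ Ψ.toLinearMap), fun u v => ?_⟩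
    rw [← hΨ u]
    simp only [LinearMap.comp_apply, LinearEquiv.coe_coe, LinearEquiv.apply_symm_apply,
      LinearMap.dualMap_apply]
    rw [hΨ]
  refine ⟨f', ⟨fun v hv => ?_, fun i j => ?_⟩, hf'⟩
  · apply mem_Q_of_coord
    refine coord_mem P.bB P.ψ (algebraMap ℚ ℂ) ϖ hϖ (fun i j => ?_) (ndr P) (f' v) (fun i => ?_)
    · exact P.hψQ _ (P.basis_mem i) _ (P.basis_mem j)
    · rw [← hf']
      exact P.hψQ _ (hf.rat _ (P.basis_mem i)) _ hv
  · have h1 := coord_mem (Pi.basisFun ℂ κ) P.ψ (algebraMap (algebraicClosure ℚ ℂ) ℂ) 1 one_ne_zero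
      (fun i j => ?_) (ndr P) (f' (Pi.single i 1)) (fun j => ?_) j
    · obtain ⟨q, hq⟩ := h1
      rw [Pi.basisFun_repr] at hq
      rw [hq]
      exact mem_algebraicClosure_iff.mp q.2
    · refine ⟨⟨P.ψ (Pi.single i 1) (Pi.single j 1),
        mem_algebraicClosure_iff.mpr (P.hψalg i j)⟩, ?_⟩
      rw [Pi.basisFun_apply, Pi.basisFun_apply, one_mul]
      rfl
    · have h2 : IsAlgebraic ℚ (P.ψ (f (Pi.single j 1)) (Pi.single i 1)) := by
        have h3 : f (Pi.single j 1) = ∑ l, f (Pi.single j 1) l • (Pi.single l (1 : ℂ) : κ → ℂ) := by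
          funext m; simp [Finset.sum_apply, Pi.single_apply]
        rw [h3, map_sum, LinearMap.sum_apply]
        refine isAlg_sum _ _ fun l _ => ?_
        rw [map_smul, LinearMap.smul_apply, smul_eq_mul]
        exact (hf.alg j l).mul (P.hψalg l i)
      refine ⟨⟨_, mem_algebraicClosure_iff.mpr h2⟩, ?_⟩
      rw [← hf', Pi.basisFun_apply, one_mul]
      rfl

/-- the algebra of de Rham-Betti endomorphisms -/
noncomputable def DD : Subalgebra ℚ (Module.End ℂ (κ → ℂ)) where
  carrier := {f | IsDRB P P f}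
  mul_mem' := by
    intro f g hf hg
    refine ⟨fun v hv => hf.rat _ (hg.rat v hv), fun i j => ?_⟩
    have h3 : g (Pi.single i 1) = ∑ l, g (Pi.single i 1) l • (Pi.single l (1 : ℂ) : κ → ℂ) := by
      funext m; simp [Finset.sum_apply, Pi.single_apply]
    rw [Module.End.mul_apply, h3, map_sum, Finset.sum_apply]
    refine isAlg_sum _ _ fun l _ => ?_
    rw [map_smul, Pi.smul_apply, smul_eq_mul]
    exact (hg.alg i l).mul (hf.alg l j)
  add_mem' := by
    intro f g hf hg
    refine ⟨fun v hv => P.Q.add_mem (hf.rat v hv) (hg.rat v hv), fun i j => ?_⟩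
    rw [LinearMap.add_apply, Pi.add_apply]
    exact (hf.alg i j).add (hg.alg i j)
  algebraMap_mem' := by
    intro q
    refine ⟨fun v hv => ?_, fun i j => ?_⟩
    · have h1 : (algebraMap ℚ (Module.End ℂ (κ → ℂ)) q) v = q • v := by
        rw [Algebra.algebraMap_eq_smul_one, LinearMap.smul_apply, Module.End.one_apply]
      rw [h1]
      exact P.Q.smul_mem q hv
    · have h1 : (algebraMap ℚ (Module.End ℂ (κ → ℂ)) q) (Pi.single i 1) =
          q • (Pi.single i (1 : ℂ) : κ → ℂ) := by
        rw [Algebra.algebraMap_eq_smul_one, LinearMap.smul_apply, Module.End.one_apply]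
      rw [h1, Pi.smul_apply]
      have h2 : q • (Pi.single i (1 : ℂ) : κ → ℂ) j = (q : ℂ) * (Pi.single i (1 : ℂ) : κ → ℂ) j := by
        rw [Algebra.smul_def, eq_ratCast]
      rw [h2]
      refine (isAlgebraic_ratCast ℚ q).mul ?_
      by_cases h : j = i
      · subst h; rw [Pi.single_eq_same]; exact isAlgebraic_one
      · rw [Pi.single_eq_of_ne h]; exact isAlgebraic_zero

lemma mem_DD (f : Module.End ℂ (κ → ℂ)) : f ∈ DD P ↔ IsDRB P P f := Iff.rfl

lemma ext_Q {W : Type*} [AddCommGroup W] [Module ℂ W] (f g : (κ → ℂ) →ₗ[ℂ] W)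
    (h : ∀ v ∈ P.Q, f v = g v) : f = g :=
  P.bB.ext fun i => h _ (P.basis_mem i)

lemma finite_DD : Module.Finite ℚ (DD P) := by
  have hQfin : Module.Finite ℚ P.Q := Module.Finite.span_of_finite ℚ (Set.finite_range P.bB)
  let r : DD P →ₗ[ℚ] (P.Q →ₗ[ℚ] P.Q) :=
    { toFun := fun f => ((f : Module.End ℂ (κ → ℂ)).restrictScalars ℚ).restrict
        (fun v hv => ((mem_DD P f).mp f.2).rat v hv)
      map_add' := fun f g => by ext v; rfl
      map_smul' := fun q f => by ext v; rfl }
  have hfin : Module.Finite ℚ (P.Q →ₗ[ℚ] P.Q) := Module.Finite.linearMap ℚ ℚ P.Q P.Q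
  have hr : Function.Injective r := by
    intro f g hfg
    apply Subtype.ext
    apply ext_Q P
    intro v hv
    have h1 := congrArg (fun s => ((s ⟨v, hv⟩ : P.Q) : κ → ℂ)) hfg
    exact h1
  exact Module.Finite.of_injective r hr

end adjoint

section real

variable (A : AbVar)

/-- the real structure -/
noncomputable def VR : Submodule ℝ A.H1 := Submodule.span ℝ {u | A.IsBetti u}

lemma betti_VR {u : A.H1} (h : A.IsBetti u) : u ∈ VR A := Submodule.subset_span h

lemma zz_period (z : Fin A.g → ℂ) : A.zz (A.period z) = z := rfl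

lemma period_VR (z : Fin A.g → ℂ) : A.period z ∈ VR A := by
  have h1 : z ∈ Submodule.span ℝ (A.Λ : Set (Fin A.g → ℂ)) := by
    rw [A.lattice.spans]; exact Submodule.mem_top
  induction h1 using Submodule.span_induction with
  | mem z hz =>
    apply betti_VR
    exact ⟨1, one_ne_zero, z, hz, by rw [Nat.cast_one, one_smul]⟩
  | zero => rw [period_zero]; exact Submodule.zero_mem _
  | add x y _ _ hx hy => rw [period_add]; exact Submodule.add_mem _ hx hy
  | smul r x _ hx => rw [period_rsmul]; exact Submodule.smul_mem _ _ hx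

lemma VR_period {z : A.H1} (hz : z ∈ VR A) : A.period (A.zz z) = z := (real_span_betti A hz).symm

lemma VR_map (f : A.H1 →ₗ[ℂ] A.H1) (hf : ∀ v, A.IsBetti v → A.IsBetti (f v)) {u : A.H1}
    (hu : u ∈ VR A) : f u ∈ VR A := by
  unfold VR at hu
  induction hu using Submodule.span_induction with
  | mem z hz => exact betti_VR A (hf z hz)
  | zero => rw [map_zero]; exact Submodule.zero_mem _
  | add x y _ _ hx hy => rw [map_add]; exact Submodule.add_mem _ hx hy
  | smul r x _ hx =>
    have h1 : f (r • x) = r • f x := by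
      have h2 : r • x = (r : ℂ) • x := by funext j; simp
      have h3 : r • f x = (r : ℂ) • f x := by funext j; simp
      rw [h2, h3, map_smul]
    rw [h1]; exact Submodule.smul_mem _ _ hx

lemma exists_decomp (v : A.H1) : ∃ a ∈ VR A, ∃ b ∈ VR A, v = a + Complex.I • b := by
  have h1 := span_betti A v
  induction h1 using Submodule.span_induction with
  | mem z hz =>
    exact ⟨z, betti_VR A hz, 0, Submodule.zero_mem _, by rw [smul_zero, add_zero]⟩
  | zero => exact ⟨0, Submodule.zero_mem _, 0, Submodule.zero_mem _, by rw [smul_zero, add_zero]⟩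
  | add x y _ _ hx hy =>
    obtain ⟨a, ha, b, hb, h1⟩ := hx
    obtain ⟨a', ha', b', hb', h2⟩ := hy
    refine ⟨a + a', Submodule.add_mem _ ha ha', b + b', Submodule.add_mem _ hb hb', ?_⟩
    rw [h1, h2, smul_add]; abel
  | smul c x _ hx =>
    obtain ⟨a, ha, b, hb, h1⟩ := hx
    refine ⟨c.re • a - c.im • b, Submodule.sub_mem _ (Submodule.smul_mem _ _ ha)
      (Submodule.smul_mem _ _ hb), c.im • a + c.re • b, Submodule.add_mem _
      (Submodule.smul_mem _ _ ha) (Submodule.smul_mem _ _ hb), ?_⟩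
    rw [h1]
    funext j
    simp only [Pi.smul_apply, Pi.add_apply, Pi.sub_apply, smul_eq_mul, Complex.real_smul]
    conv_lhs => rw [← Complex.re_add_im c]
    ring_nf
    rw [Complex.I_sq]
    ring

lemma pol_real {a u : A.H1} (ha : a ∈ VR A) (hu : u ∈ VR A) :
    ∃ r : ℝ, (pData A).ψ a u = 2 * Real.pi * Complex.I * r := by
  refine ⟨(hermForm A.H (A.zz a) (A.zz u)).im, ?_⟩
  conv_lhs => rw [← VR_period A ha, ← VR_period A hu]
  exact polForm_period A _ _

lemma VR_disjoint {a b : A.H1} (ha : a ∈ VR A) (hb : b ∈ VR A) (h : a + Complex.I • b = 0) :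
    a = 0 ∧ b = 0 := by
  have key : ∀ u, A.IsBetti u → (pData A).ψ a u = 0 ∧ (pData A).ψ b u = 0 := by
    intro u hu
    obtain ⟨r, hr⟩ := pol_real A ha (betti_VR A hu)
    obtain ⟨s, hs⟩ := pol_real A hb (betti_VR A hu)
    have h1 : (pData A).ψ (a + Complex.I • b) u = 0 := by rw [h, map_zero, LinearMap.zero_apply]
    rw [map_add, map_smul, LinearMap.add_apply, LinearMap.smul_apply, smul_eq_mul, hr, hs] at h1
    have h2 : (2 * Real.pi * Complex.I) * ((r : ℂ) + Complex.I * s) = 0 := by
      rw [← h1]; ring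
    have h3 := (mul_eq_zero.mp h2).resolve_left Complex.two_pi_I_ne_zero
    have h4 := congrArg Complex.re h3
    have h5 := congrArg Complex.im h3
    simp at h4 h5
    rw [hr, hs, h4, h5]
    simp
  have h0 : ∀ x : A.H1, (∀ u, A.IsBetti u → (pData A).ψ x u = 0) → x = 0 := by
    intro x hx
    apply (pData A).hψnd
    intro v
    have h1 := span_betti A v
    induction h1 using Submodule.span_induction with
    | mem z hz => exact hx z hz
    | zero => exact map_zero _
    | add y z _ _ hy hz => rw [map_add, hy, hz, add_zero]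
    | smul c y _ hy => rw [map_smul, hy, smul_zero]
  exact ⟨h0 a fun u hu => (key u hu).1, h0 b fun u hu => (key u hu).2⟩

/-- the Hermitian form on the real structure -/
noncomputable def hf (u v : A.H1) : ℂ := hermForm A.H (A.zz u) (A.zz v)

lemma hf_pol {a u : A.H1} (ha : a ∈ VR A) (hu : u ∈ VR A) :
    (pData A).ψ a u = 2 * Real.pi * Complex.I * ((hf A a u).im : ℂ) := by
  conv_lhs => rw [← VR_period A ha, ← VR_period A hu]
  exact polForm_period A _ _

lemma hf_symm (u v : A.H1) : hf A v u = conj (hf A u v) :=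
  hermForm_symm A.H A.appellHumbert.herm _ _

lemma hf_pos {u : A.H1} (hu : u ∈ VR A) (h0 : u ≠ 0) : 0 < (hf A u u).re := by
  apply A.appellHumbert.pos
  intro h
  apply h0
  rw [← VR_period A hu, h, period_zero]

lemma hf_nonneg {u : A.H1} (hu : u ∈ VR A) : 0 ≤ (hf A u u).re := by
  by_cases h : u = 0
  · subst h
    have : hf A 0 0 = 0 := by
      unfold hf
      rw [map_zero]
      have := Pool.Agent.Helper7.hermForm_smul_left A.H 0 0 0
      rw [zero_smul, zero_mul] at this
      exact this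
    rw [this]; exact le_refl _
  · exact (hf_pos A hu h).le

/-- adjointness for the Hermitian form -/
lemma hf_adj (f f' : A.H1 →ₗ[ℂ] A.H1) (h1 : A.IsEnd f) (h2 : A.IsEnd f')
    (h : ∀ u v, (pData A).ψ (f u) v = (pData A).ψ u (f' v)) {u v : A.H1} (hu : u ∈ VR A)
    (hv : v ∈ VR A) : hf A (f u) v = hf A u (f' v) := by
  have him : ∀ {u v : A.H1}, u ∈ VR A → v ∈ VR A → (hf A (f u) v).im = (hf A u (f' v)).im := by
    intro u v hu hv
    have h3 := h u v
    rw [hf_pol A (VR_map A f h1.betti hu) hv, hf_pol A hu (VR_map A f' h2.betti hv)] at h3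
    have h4 := mul_left_cancel₀ Complex.two_pi_I_ne_zero h3
    exact_mod_cast h4
  apply Complex.ext
  · have h3 := him (period_VR A (Complex.I • A.zz u)) hv
    have h4 : A.zz (f (A.period (Complex.I • A.zz u))) = Complex.I • A.zz (f u) := by
      have h5 := h1.hodge (A.period (Complex.I • A.zz u) - Complex.I • u) (fun a => by
        change (Complex.I • A.zz u) a - Complex.I * u (.inl a) = 0
        change Complex.I * u (.inl a) - Complex.I * u (.inl a) = 0
        rw [sub_self])
      funext a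
      have h6 := h5 a
      rw [map_sub, map_smul] at h6
      exact sub_eq_zero.mp h6
    unfold hf at h3
    rw [h4, zz_period, Pool.Agent.Helper7.hermForm_smul_left,
      Pool.Agent.Helper7.hermForm_smul_left] at h3
    simpa [hf] using h3
  · exact him hu hv

/-- the adjoint acts on a common eigenvector by the complex conjugate -/
lemma eig_conj (f f' : A.H1 →ₗ[ℂ] A.H1) (h1 : A.IsEnd f) (h2 : A.IsEnd f')
    (h : ∀ u v, (pData A).ψ (f u) v = (pData A).ψ u (f' v)) {v : A.H1} (hv : v ≠ 0) {s s' : ℂ}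
    (hs : f v = s • v) (hs' : f' v = s' • v) : s' = conj s := by
  obtain ⟨a, ha, b, hb, rfl⟩ := exists_decomp A v
  have split : ∀ (g : A.H1 →ₗ[ℂ] A.H1) (t : ℂ), (∀ v, A.IsBetti v → A.IsBetti (g v)) →
      g (a + Complex.I • b) = t • (a + Complex.I • b) →
      g a = t.re • a - t.im • b ∧ g b = t.im • a + t.re • b := by
    intro g t hg ht
    have h3 := VR_disjoint A (a := g a - (t.re • a - t.im • b)) (b := g b - (t.im • a + t.re • b))
      (Submodule.sub_mem _ (VR_map A g hg ha) (Submodule.sub_mem _ (Submodule.smul_mem _ _ ha)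
        (Submodule.smul_mem _ _ hb)))
      (Submodule.sub_mem _ (VR_map A g hg hb) (Submodule.add_mem _ (Submodule.smul_mem _ _ ha)
        (Submodule.smul_mem _ _ hb))) (by
        rw [map_add, map_smul] at ht
        have h4 : t • (a + Complex.I • b) = (t.re • a - t.im • b) +
            Complex.I • (t.im • a + t.re • b) := by
          funext j
          simp only [Pi.smul_apply, Pi.add_apply, Pi.sub_apply, smul_eq_mul, Complex.real_smul]
          conv_lhs => rw [← Complex.re_add_im t]
          ring_nf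
          rw [Complex.I_sq]
          ring
        rw [h4] at ht
        rw [smul_sub]
        have h5 : g a - (t.re • a - t.im • b) + (Complex.I • g b -
            Complex.I • (t.im • a + t.re • b)) = (g a + Complex.I • g b) -
            ((t.re • a - t.im • b) + Complex.I • (t.im • a + t.re • b)) := by abel
        rw [h5, ht, sub_self])
    exact ⟨sub_eq_zero.mp h3.1, sub_eq_zero.mp h3.2⟩
  obtain ⟨e1, e2⟩ := split f s h1.betti hs
  obtain ⟨e3, e4⟩ := split f' s' h2.betti hs'
  have hadd : ∀ x y z : A.H1, hf A (x + y) z = hf A x z + hf A y z := by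
    intro x y z
    unfold hf; rw [map_add, Pool.Agent.Helper7.hermForm_add_left]
  have hadd' : ∀ x y z : A.H1, hf A x (y + z) = hf A x y + hf A x z := by
    intro x y z
    unfold hf; rw [map_add, Pool.Agent.Helper7.hermForm_add_right]
  have hsm : ∀ (r : ℝ) (x z : A.H1), hf A (r • x) z = r * hf A x z := by
    intro r x z
    have h3 : A.zz (r • x) = (r : ℂ) • A.zz x := by funext j; simp
    unfold hf; rw [h3, Pool.Agent.Helper7.hermForm_smul_left]
  have hsm' : ∀ (r : ℝ) (x z : A.H1), hf A x (r • z) = r * hf A x z := by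
    intro r x z
    have h3 : A.zz (r • z) = (r : ℂ) • A.zz z := by funext j; simp
    unfold hf; rw [h3, Pool.Agent.Helper7.hermForm_smul_right, Complex.conj_ofReal]
  have hneg : ∀ (x y z : A.H1), hf A (x - y) z = hf A x z - hf A y z := by
    intro x y z
    have := hadd (x - y) y z
    rw [sub_add_cancel] at this
    rw [this]; ring
  have hneg' : ∀ (x y z : A.H1), hf A x (y - z) = hf A x y - hf A x z := by
    intro x y z
    have := hadd' x (y - z) z
    rw [sub_add_cancel] at this
    rw [this]; ring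
  have a1 := hf_adj A f f' h1 h2 h ha ha
  have a2 := hf_adj A f f' h1 h2 h hb hb
  have a3 := hf_adj A f f' h1 h2 h ha hb
  have a4 := hf_adj A f f' h1 h2 h hb ha
  rw [e1, e3, hneg, hneg', hsm, hsm, hsm', hsm'] at a1
  rw [e2, e4, hadd, hadd', hsm, hsm, hsm', hsm'] at a2
  rw [e1, e4, hneg, hadd', hsm, hsm, hsm', hsm'] at a3
  rw [e2, e3, hadd, hneg', hsm, hsm, hsm', hsm'] at a4
  have hba := hf_symm A a b
  have haa := congrArg Complex.im (hf_symm A a a)
  have hbb := congrArg Complex.im (hf_symm A b b)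
  rw [hba] at a1 a2 a4
  rw [Complex.conj_im] at haa hbb
  have haa0 : (hf A a a).im = 0 := by linarith
  have hbb0 : (hf A b b).im = 0 := by linarith
  have hN : 0 < (hf A a a).re + (hf A b b).re := by
    by_cases h0 : a = 0
    · have hb0 : b ≠ 0 := by
        rintro rfl
        apply hv
        rw [h0, smul_zero, add_zero]
      have := hf_pos A hb hb0
      have := hf_nonneg A ha
      linarith
    · have := hf_pos A ha h0
      have := hf_nonneg A hb
      linarith
  have r1 := congrArg Complex.re a1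
  have r2 := congrArg Complex.re a2
  have r3 := congrArg Complex.re a3
  have r4 := congrArg Complex.re a4
  simp only [Complex.sub_re, Complex.add_re, Complex.mul_re, Complex.ofReal_re, Complex.ofReal_im,
    Complex.conj_re, Complex.conj_im, haa0, hbb0, zero_mul, mul_zero, sub_zero] at r1 r2 r3 r4
  apply Complex.ext
  · rw [Complex.conj_re]
    have h5 : (s'.re - s.re) * ((hf A a a).re + (hf A b b).re) = 0 := by linarith
    rcases mul_eq_zero.mp h5 with h6 | h6
    · linarith
    · exact absurd h6 hN.ne'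
  · rw [Complex.conj_im]
    have h5 : (s'.im + s.im) * ((hf A a a).re + (hf A b b).re) = 0 := by linarith
    rcases mul_eq_zero.mp h5 with h6 | h6
    · linarith
    · exact absurd h6 hN.ne'

/-- positivity -/
lemma eig_pos (f f' : A.H1 →ₗ[ℂ] A.H1) (h1 : A.IsEnd f) (h2 : A.IsEnd f')
    (h : ∀ u v, (pData A).ψ (f u) v = (pData A).ψ u (f' v)) (hinj : Function.Injective f)
    {v : A.H1} (hv : v ≠ 0) {s : ℝ} (hs : f' (f v) = (s : ℂ) • v) : 0 < s := by
  obtain ⟨a, ha, b, hb, rfl⟩ := exists_decomp A v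
  have hcomp : ∀ u, A.IsBetti u → A.IsBetti ((f' ∘ₗ f) u) := fun u hu =>
    h2.betti _ (h1.betti _ hu)
  have h3 := VR_disjoint A (a := f' (f a) - s • a) (b := f' (f b) - s • b)
      (Submodule.sub_mem _ (VR_map A (f' ∘ₗ f) hcomp ha) (Submodule.smul_mem _ _ ha))
      (Submodule.sub_mem _ (VR_map A (f' ∘ₗ f) hcomp hb) (Submodule.smul_mem _ _ hb)) (by
        rw [map_add, map_add, map_smul, map_smul, smul_add] at hs
        have e1 : ∀ x : A.H1, s • x = (s : ℂ) • x := fun x => by funext j; simp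
        rw [e1, e1, smul_sub, smul_comm Complex.I (s : ℂ) b]
        have h5 : f' (f a) - (s : ℂ) • a + (Complex.I • f' (f b) - (s : ℂ) • Complex.I • b) =
          (f' (f a) + Complex.I • f' (f b)) - ((s : ℂ) • a + (s : ℂ) • Complex.I • b) := by abel
        rw [h5, hs, sub_self])
  have key : ∀ x : A.H1, x ∈ VR A → x ≠ 0 → f' (f x) - s • x = 0 → 0 < s := by
    intro x hx hx0 hfx
    have h4 := hf_adj A f f' h1 h2 h hx (VR_map A f h1.betti hx)
    rw [sub_eq_zero.mp hfx] at h4
    have hsm' : hf A x (s • x) = s * hf A x x := by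
      have h3 : A.zz (s • x) = (s : ℂ) • A.zz x := by funext j; simp
      unfold hf; rw [h3, Pool.Agent.Helper7.hermForm_smul_right, Complex.conj_ofReal]
    rw [hsm'] at h4
    have h5 : 0 < (hf A (f x) (f x)).re := hf_pos A (VR_map A f h1.betti hx) (fun h0 => hx0
      (hinj (by rw [h0, map_zero])))
    have h6 := hf_pos A hx hx0
    rw [h4, Complex.re_ofReal_mul] at h5
    by_contra hneg
    push Not at hneg
    nlinarith
  by_cases h0 : a = 0
  · have hb0 : b ≠ 0 := by
      rintro rfl
      apply hv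
      rw [h0, smul_zero, add_zero]
    exact key b hb hb0 h3.2
  · exact key a ha h0 h3.1

end real

end Pool.Agent.Helper71.AF
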