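import Pool.Agent.Helper71.AF.Cases
import Pool.Agent.Helper7.U.UIrred

/-!
Ranks in the Hermitian and in the quaternionic case.
-/

open scoped ComplexConjugate

namespace Pool.Agent.Helper71.AF

open Module NumberField Pool.Agent.GPC Pool.Agent.Helper7

section semilinear

variable {K V : Type*} [Field K] [AddCommGroup V] [Module K V] [Module.Finite K V]

lemma finrank_sup_span (W : Submodule K V) (v : V) (hv : v ∉ W) :
    finrank K (W ⊔ Submodule.span K {v} : Submodule K V) = finrank K W + 1 := by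
  have h0 : v ≠ 0 := by
    rintro rfl
    exact hv W.zero_mem
  have h1 := Submodule.finrank_sup_add_finrank_inf_eq W (Submodule.span K {v})
  have h2 : W ⊓ Submodule.span K {v} = ⊥ := by
    rw [← disjoint_iff, Submodule.disjoint_span_singleton' h0]
    exact hv
  rw [h2, finrank_bot, add_zero, finrank_span_singleton h0] at h1
  exact h1

/-- a vector space with a semilinear map of negative square has even dimension -/
lemma even_of_semilinear (c : K → K) (J : V → V) (hadd : ∀ u v, J (u + v) = J u + J v)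
    (hsm : ∀ x v, J (x • v) = c x • J v) (b : K) (hJJ : ∀ v, J (J v) = b • v)
    (hb : ∀ x, b ≠ c x * x) : Even (finrank K V) := by
  by_contra hodd
  rw [Nat.not_even_iff_odd] at hodd
  have key : ∀ n : ℕ, ∃ W : Submodule K V, (∀ w ∈ W, J w ∈ W) ∧ finrank K W = 2 * n := by
    intro n
    induction n with
    | zero =>
      refine ⟨⊥, fun w hw => ?_, by rw [finrank_bot, mul_zero]⟩
      rw [Submodule.mem_bot] at hw ⊢
      have h1 := hsm 0 0
      rw [zero_smul] at h1
      rw [hw]
      have h2 := hadd 0 0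
      rw [add_zero] at h2
      exact left_eq_add.mp h2
    | succ n ih =>
      obtain ⟨W, hW, hWr⟩ := ih
      have hne : W ≠ ⊤ := by
        rintro rfl
        rw [finrank_top] at hWr
        rw [hWr] at hodd
        exact (Nat.not_even_iff_odd.mpr hodd) (even_two_mul n)
      obtain ⟨v, hv⟩ : ∃ v, v ∉ W := by
        by_contra hall
        push Not at hall
        exact hne (Submodule.eq_top_iff'.mpr hall)
      have hJv : J v ∉ W ⊔ Submodule.span K {v} := by
        intro h1
        obtain ⟨w, hw, y, hy, hwy⟩ := Submodule.mem_sup.mp h1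
        obtain ⟨x, rfl⟩ := Submodule.mem_span_singleton.mp hy
        have h2 := hJJ v
        rw [← hwy, hadd, hsm, ← hwy, smul_add, smul_smul, ← add_assoc] at h2
        have h3 : (b - c x * x) • v = J w + c x • w := by
          rw [sub_smul, ← h2]; abel
        have h4 : v ∈ W := by
          have h5 : b - c x * x ≠ 0 := sub_ne_zero.mpr (hb x)
          have h6 : v = (b - c x * x)⁻¹ • (J w + c x • w) := by
            rw [← h3, smul_smul, inv_mul_cancel₀ h5, one_smul]
          rw [h6]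
          exact W.smul_mem _ (W.add_mem (hW w hw) (W.smul_mem _ hw))
        exact hv h4
      refine ⟨W ⊔ Submodule.span K {v} ⊔ Submodule.span K {J v}, fun u hu => ?_, ?_⟩
      · obtain ⟨p, hp, q, hq, rfl⟩ := Submodule.mem_sup.mp hu
        obtain ⟨w, hw, z, hz, rfl⟩ := Submodule.mem_sup.mp hp
        obtain ⟨x, rfl⟩ := Submodule.mem_span_singleton.mp hz
        obtain ⟨y, rfl⟩ := Submodule.mem_span_singleton.mp hq
        rw [hadd, hadd, hsm, hsm, hJJ]
        refine Submodule.add_mem _ (Submodule.add_mem _ ?_ ?_) ?_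
        · exact Submodule.mem_sup_left (Submodule.mem_sup_left (hW w hw))
        · exact Submodule.mem_sup_right (Submodule.smul_mem _ _ (Submodule.mem_span_singleton_self _))
        · exact Submodule.mem_sup_left (Submodule.mem_sup_right (Submodule.smul_mem _ _
            (Submodule.smul_mem _ _ (Submodule.mem_span_singleton_self _))))
      · rw [finrank_sup_span _ _ hJv, finrank_sup_span _ _ hv, hWr]
        ring
  obtain ⟨W, -, hW⟩ := key (finrank K V)
  have h1 := Submodule.finrank_le W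
  have h2 := hodd.pos
  omega

end semilinear

/-- the action as ring homomorphism -/
noncomputable def mkRho {A : AbVar} {K : Type} [Field K] (ρ : K → A.H1 → A.H1)
    (one : ∀ v, ρ 1 v = v) (mul : ∀ x y v, ρ (x * y) v = ρ x (ρ y v))
    (add : ∀ x y v, ρ (x + y) v = ρ x v + ρ y v) (endo : ∀ x, A.IsEnd (ρ x)) :
    K →+* Module.End ℂ A.H1 where
  toFun x := IsLinearMap.mk' _ (endo x).linear
  map_one' := LinearMap.ext one
  map_mul' x y := LinearMap.ext (mul x y)
  map_add' x y := LinearMap.ext (add x y)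
  map_zero' := LinearMap.ext fun v => by
    have h := add 0 0 v
    rw [add_zero] at h
    exact left_eq_add.mp h

end Pool.Agent.Helper71.AF

namespace Pool.Agent.GPC

open Module NumberField Pool.Agent.Helper7 Pool.Agent.Helper71.AF

/-- `2 dim A = [K : ℚ] r` in the Hermitian case. -/
theorem herm_rank (A : AbVar) (K : Type) [Field K] [NumberField K] [NumberField.IsCMField K]
    (ρ : K → A.H1 → A.H1) (C : A.IsHermMult K ρ) : ∃ r, finrank ℚ K * r = 2 * A.g := by
  obtain ⟨r, hr⟩ := exists_rank (pData A) (mkRho ρ C.one C.mul C.add C.endo)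
    (fun x v hv => (isDRB_of_isEnd A _ (C.endo x)).rat v hv)
  rw [card_index] at hr
  exact ⟨r, hr⟩

end Pool.Agent.GPC

namespace Pool.Agent.Helper71.AF

open Module NumberField Pool.Agent.GPC Pool.Agent.Helper7

section quat

variable (A : AbVar) (hg : 0 < A.g) (K : Type) [Field K] [NumberField K] [NumberField.IsCMField K]
    (ρ : K →+* Module.End ℂ A.H1) (J : Module.End ℂ A.H1) (b : K)
    (hρ : ∀ x, A.IsEnd (ρ x)) (hJ : A.IsEnd J)
    (hJρ : ∀ x v, J (ρ x v) = ρ (cmConj K x) (J v))
    (hJJ : ∀ v, J (J v) = ρ b v)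
    (hros : ∀ x u v, (pData A).ψ (ρ x u) v = (pData A).ψ u (ρ (cmConj K x) v))
    (hrosJ : ∀ u v, (pData A).ψ (J u) v = - (pData A).ψ u (J v))
    (hb : b ≠ 0)
    (hcen : ∀ f, A.IsEnd f → (∀ x, cmConj K x = x → ∀ v, f (ρ x v) = ρ x (f v)) →
      ∃ x y, ∀ v, f v = ρ x v + ρ y (J v))

omit [NumberField K] [NumberField.IsCMField K] in
lemma rho_inj (x : K) (hx : x ≠ 0) {v : A.H1} (h : ρ x v = 0) : v = 0 := by
  have h1 : ρ x⁻¹ (ρ x v) = v := by
    rw [← Module.End.mul_apply, ← map_mul, inv_mul_cancel₀ hx, map_one]; rfl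
  rw [← h1, h, map_zero]

include hJJ hb in
omit [NumberField K] [NumberField.IsCMField K] in
lemma J_inj : Function.Injective J := by
  rw [← LinearMap.ker_eq_bot, LinearMap.ker_eq_bot']
  intro v hv
  have h1 := hJJ v
  rw [hv, map_zero] at h1
  exact rho_inj A K ρ b hb h1.symm

include hg hρ hJ hJJ hrosJ hb in
lemma b_ne (x : K) : b ≠ cmConj K x * x := by
  intro hbx
  obtain ⟨σ⟩ : Nonempty (K →+* ℂ) := inferInstance
  obtain ⟨v, hv, hev⟩ := exists_eig A hg ρ hρ σ
  have hJneg : A.IsEnd (-J : Module.End ℂ A.H1) := by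
    have h1 : -J ∈ DD (pData A) :=
      (DD (pData A)).neg_mem (show J ∈ DD (pData A) from isDRB_of_isEnd A _ hJ)
    exact isEnd_of_isDRB A _ h1
  have h1 := eig_pos A J (-J) hJ hJneg (fun u v => by
    rw [LinearMap.neg_apply, map_neg, hrosJ]) (J_inj A K ρ J b hJJ hb) hv
    (s := -(Complex.normSq (σ x))) (by
      rw [LinearMap.neg_apply, hJJ, hev, hbx, map_mul]
      have h2 : σ (cmConj K x) = conj (σ x) := IsCMField.complexEmbedding_complexConj K σ x
      rw [h2, ← Complex.normSq_eq_conj_mul_self, Complex.ofReal_neg, neg_smul])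
  have h2 := Complex.normSq_nonneg (σ x)
  linarith

include hg hρ hJ hJρ hJJ hrosJ hb in
lemma exists_even_rank : ∃ m, finrank ℚ K * (2 * m) = 2 * A.g := by
  have hQ : ∀ x, ∀ v ∈ (pData A).Q, ρ x v ∈ (pData A).Q :=
    fun x v hv => (isDRB_of_isEnd A _ (hρ x)).rat v hv
  have hJQ : ∀ v ∈ (pData A).Q, J v ∈ (pData A).Q :=
    fun v hv => (isDRB_of_isEnd A _ hJ).rat v hv
  let P := pData A
  let _ : Module K P.Q := kmod P ρ hQ
  have hsmul : ∀ (x : K) (v : P.Q), ((x • v : P.Q) : A.H1) = ρ x v := fun _ _ => rfl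
  have : IsScalarTower ℚ K P.Q := ⟨fun q x v => Subtype.ext (by
    rw [hsmul, SetLike.val_smul, hsmul, rho_ratsmul, LinearMap.smul_apply]
    funext j; simp [Algebra.smul_def])⟩
  have hcardι : Fintype.card P.ι = Fintype.card (Fin A.g ⊕ Fin A.g) := by
    have h1 := Module.finrank_eq_card_basis P.bB
    rw [Module.finrank_fintype_fun_eq_card] at h1
    exact h1.symm
  have hfin : finrank ℚ P.Q = 2 * A.g := by
    rw [← card_index, ← hcardι]
    apply finrank_span_eq_card
    exact P.bB.linearIndependent.restrict_scalars (by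
      intro a b h
      simpa using h)
  have hQfin : Module.Finite ℚ P.Q := Module.Finite.span_of_finite ℚ (Set.finite_range P.bB)
  have : Module.Finite K P.Q := Module.Finite.of_restrictScalars_finite ℚ K P.Q
  have heven : Even (finrank K P.Q) :=
    even_of_semilinear (cmConj K) (fun v : P.Q => (⟨J v, hJQ v v.2⟩ : P.Q))
      (fun u v => Subtype.ext (map_add J _ _)) (fun x v => Subtype.ext (hJρ x v)) b
      (fun v => Subtype.ext (hJJ v)) (b_ne A hg K ρ J b hρ hJ hJJ hrosJ hb)
  obtain ⟨m, hm⟩ := heven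
  refine ⟨m, ?_⟩
  rw [two_mul m, ← hm, Module.finrank_mul_finrank ℚ K P.Q, hfin]

include hJ hρ hJρ hJJ hros hrosJ hb hcen in
lemma rank_ne_two (hr : finrank ℚ K * 2 = 2 * A.g) : False := by
  classical
  have hQ : ∀ x, ∀ v ∈ (pData A).Q, ρ x v ∈ (pData A).Q :=
    fun x v hv => (isDRB_of_isEnd A _ (hρ x)).rat v hv
  obtain ⟨lam, hlam, hgen, eb, heb⟩ := exists_Kbasis (pData A) ρ hQ 2 (by rw [card_index, hr])
  have hcmc : ∀ (σ : K →+* ℂ) x, σ (cmConj K x) = conj (σ x) :=
    fun σ x => IsCMField.complexEmbedding_complexConj K σ x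
  -- an element which is not real
  obtain ⟨z, hz⟩ : ∃ z : K, cmConj K z ≠ z := by
    by_contra hall
    push Not at hall
    apply IsCMField.complexConj_ne_one K
    exact AlgEquiv.ext fun x => hall x
  have hg : 0 < A.g := by
    have h1 : 0 < finrank ℚ K := Module.finrank_pos
    omega
  obtain ⟨v0, hv0⟩ : ∃ v0 : A.H1, v0 ≠ 0 :=
    ⟨Pi.single (Sum.inl ⟨0, hg⟩) 1, fun h => by
      have h1 := congrFun h (Sum.inl ⟨0, hg⟩)
      rw [Pi.single_eq_same] at h1
      exact one_ne_zero h1⟩
  let F : UF (pData A) K 2 :=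
    { ρ := ρ
      hρ := fun x => isDRB_of_isEnd A _ (hρ x)
      cc := cmConj K
      hcc := hcmc
      hros := hros
      hcen := fun f hf hcom => by
        obtain ⟨x, y, hxy⟩ := hcen f (isEnd_of_isDRB A f hf) (fun x _ v => hcom x v)
        refine ⟨x, fun v => ?_⟩
        have h1 : ρ (y * (cmConj K z - z)) (J v0) = 0 := by
          have h2 := hcom z v0
          rw [hxy, hxy, hJρ, map_add] at h2
          have h3 : ρ x (ρ z v0) = ρ z (ρ x v0) := by
            rw [← Module.End.mul_apply, ← Module.End.mul_apply, ← map_mul, ← map_mul, mul_comm]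
          rw [h3] at h2
          have h4 := add_left_cancel h2
          rw [mul_sub, map_sub, LinearMap.sub_apply, mul_comm y z, map_mul, map_mul,
            Module.End.mul_apply, Module.End.mul_apply, h4, sub_self]
        have hy : y = 0 := by
          by_contra hy
          have h2 := rho_inj A K ρ _ (mul_ne_zero hy (sub_ne_zero.mpr hz)) h1
          exact hv0 (J_inj A K ρ J b hJJ hb (by rw [h2, map_zero]))
        rw [hxy, hy, map_zero, LinearMap.zero_apply, add_zero]
      hnd := hnd_pData A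
      lam := lam
      lam_rat := hlam
      gen := hgen
      eb := eb
      heb := heb }
  have hFρ : F.ρ = ρ := rfl
  obtain ⟨σ⟩ : Nonempty (K →+* ℂ) := inferInstance
  -- eigenvectors
  have hcorho : ∀ (τ : K →+* ℂ) a x v, F.co τ a (ρ x v) = τ x * F.co τ a v := by
    intro τ a x v
    refine F.ext_e ((F.co τ a) ∘ₗ (ρ x)) (τ x • F.co τ a) (fun σ' j => ?_) v
    rw [LinearMap.comp_apply, ← hFρ, F.rho_e, map_smul, LinearMap.smul_apply, F.co_e]
    split_ifs with h
    · rw [h.1]
    · rw [smul_zero, smul_zero]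
  have hspan : ∀ (τ : K →+* ℂ) v, (∀ x, ρ x v = τ x • v) → v = ∑ j, F.co τ j v • F.e τ j := by
    intro τ v hv
    conv_lhs => rw [F.hsum v]
    rw [Finset.sum_eq_single τ]
    · intro τ' _ hne
      refine Finset.sum_eq_zero fun j _ => ?_
      have h1 : F.co τ' j v = 0 := by
        by_contra h0
        apply hne
        ext x
        have h2 := hcorho τ' j x v
        rw [hv, map_smul, smul_eq_mul] at h2
        exact (mul_right_cancel₀ h0 h2).symm
      rw [h1, zero_smul]
    · intro h; exact absurd (Finset.mem_univ _) h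
  have hconj2 : ∀ x : K, cmConj K (cmConj K x) = x := fun x => σ.injective (by
    rw [hcmc, hcmc, Complex.conj_conj])
  -- the symmetric form
  obtain ⟨B, hB⟩ : ∃ B : A.H1 → A.H1 → ℂ, ∀ u v, B u v = (pData A).ψ (J u) v := ⟨_, fun _ _ => rfl⟩
  have hBsymm : ∀ u v, B u v = B v u := by
    intro u v
    rw [hB, hB, hrosJ, (pData A).hψalt, neg_neg]
  have hBadd : ∀ u v w, B (u + v) w = B u w + B v w := fun u v w => by
    rw [hB, hB, hB, map_add, map_add, LinearMap.add_apply]
  have hBsm : ∀ (t : ℂ) u v, B (t • u) v = t * B u v := fun t u v => by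
    rw [hB, hB, map_smul, map_smul, LinearMap.smul_apply, smul_eq_mul]
  have hBadd' : ∀ u v w, B u (v + w) = B u v + B u w := fun u v w => by
    rw [hBsymm, hBadd, hBsymm v u, hBsymm w u]
  have hBsm' : ∀ (t : ℂ) u v, B u (t • v) = t * B u v := fun t u v => by
    rw [hBsymm, hBsm, hBsymm]
  -- an isotropic vector
  obtain ⟨w1, w2, hw12, hiso⟩ : ∃ w1 w2 : ℂ, (w1 ≠ 0 ∨ w2 ≠ 0) ∧
      B (w1 • F.e σ 0 + w2 • F.e σ 1) (w1 • F.e σ 0 + w2 • F.e σ 1) = 0 := by
    by_cases h0 : B (F.e σ 0) (F.e σ 0) = 0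
    · refine ⟨1, 0, Or.inl one_ne_zero, ?_⟩
      rw [one_smul, zero_smul, add_zero, h0]
    · obtain ⟨d, hd⟩ := IsAlgClosed.exists_pow_nat_eq (B (F.e σ 0) (F.e σ 1) ^ 2 -
        B (F.e σ 0) (F.e σ 0) * B (F.e σ 1) (F.e σ 1)) (n := 2) (by norm_num)
      refine ⟨(-B (F.e σ 0) (F.e σ 1) + d) / B (F.e σ 0) (F.e σ 0), 1, Or.inr one_ne_zero, ?_⟩
      rw [hBadd, hBadd', hBadd', hBsm, hBsm, hBsm, hBsm, hBsm', hBsm', hBsm', hBsm',
        hBsymm (F.e σ 1) (F.e σ 0)]
      field_simp
      linear_combination hd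
  obtain ⟨w, hw⟩ : ∃ w, w = w1 • F.e σ 0 + w2 • F.e σ 1 := ⟨_, rfl⟩
  rw [← hw] at hiso
  have hwe : ∀ x, ρ x w = σ x • w := by
    intro x
    rw [hw, map_add, map_smul, map_smul, ← hFρ, F.rho_e, F.rho_e, smul_add, smul_comm (σ x),
      smul_comm (σ x)]
  have hco1 : F.co σ 0 w = w1 := by
    rw [hw, map_add, map_smul, map_smul, F.co_e, F.co_e]
    simp
  have hco2 : F.co σ 1 w = w2 := by
    rw [hw, map_add, map_smul, map_smul, F.co_e, F.co_e]
    simp
  have hw0 : w ≠ 0 := by
    intro h0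
    rw [h0, map_zero] at hco1 hco2
    rcases hw12 with h1 | h1
    · exact h1 hco1.symm
    · exact h1 hco2.symm
  -- non-degeneracy
  have hnd : B (F.e σ 0) w ≠ 0 ∨ B (F.e σ 1) w ≠ 0 := by
    by_contra hall
    push Not at hall
    apply hw0
    apply ndr (pData A)
    intro u
    rw [F.hsum u, map_sum, LinearMap.sum_apply]
    refine Finset.sum_eq_zero fun τ _ => ?_
    rw [map_sum, LinearMap.sum_apply]
    refine Finset.sum_eq_zero fun j _ => ?_
    rw [map_smul, LinearMap.smul_apply]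
    have h1 : (pData A).ψ (F.e τ j) w = 0 := by
      by_cases hτ : σ = ComplexEmbedding.conjugate τ
      · have h2 : ∀ x, ρ x (J (F.e τ j)) = σ x • J (F.e τ j) := by
          intro x
          have h3 := hJρ (cmConj K x) (F.e τ j)
          rw [hconj2, ← hFρ, F.rho_e, map_smul, hcmc] at h3
          rw [← hFρ, ← h3, hτ, ComplexEmbedding.conjugate_coe_eq]
        have h3 := hspan σ _ h2
        rw [Fin.sum_univ_two] at h3
        have h4 : B (J (F.e τ j)) w = 0 := by
          rw [h3, hBadd, hBsm, hBsm, hall.1, hall.2, mul_zero, mul_zero, add_zero]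
        rw [hB, hJJ, ← hFρ, F.rho_e, map_smul, LinearMap.smul_apply, smul_eq_mul] at h4
        exact (mul_eq_zero.mp h4).resolve_left ((map_ne_zero τ).mpr hb)
      · rw [hw, map_add, map_smul, map_smul, F.psi_e τ σ j 0 hτ, F.psi_e τ σ j 1 hτ, smul_zero,
          smul_zero, add_zero]
    rw [h1, smul_zero]
  -- the line is stable
  have hst : ∀ X, IsInv (I := Unit) (fun _ => 1) (κ := fun _ => Fin A.g ⊕ Fin A.g)
      (fun _ => pData A) (k := 0) (0 : MultilinearMap ℂ (fun _ : Fin (2 * 0) =>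
        HW (fun _ : Unit => Fin A.g ⊕ Fin A.g) (fun _ => 1)) ℂ) X →
      ∀ v ∈ Submodule.span ℂ {w}, X.1 () v ∈ Submodule.span ℂ {w} := by
    intro X hX v hv
    obtain ⟨t, rfl⟩ := Submodule.mem_span_singleton.mp hv
    rw [map_smul]
    apply Submodule.smul_mem
    have hXρ : ∀ x, ρ x (X.1 () w) = σ x • X.1 () w := by
      intro x
      have h1 := hX.comm () () (ρ x) (isDRB_of_isEnd A _ (hρ x)) w
      rw [← h1, hwe, map_smul]
    have hXJ : J (X.1 () w) = X.1 () (J w) :=
      (hX.comm () () J (isDRB_of_isEnd A _ hJ) w).symm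
    have h1 := hX.pol () (J w) w
    change (pData A).ψ (X.1 () (J w)) w + (pData A).ψ (J w) (X.1 () w) =
      X.2 * (pData A).ψ (J w) w at h1
    rw [← hXJ, ← hB, ← hB, ← hB, hiso, mul_zero, hBsymm w] at h1
    have h2 : B (X.1 () w) w = 0 := by linear_combination h1 / 2
    have h3 := hspan σ _ hXρ
    rw [Fin.sum_univ_two] at h3
    obtain ⟨p, hp⟩ : ∃ p, p = F.co σ 0 (X.1 () w) := ⟨_, rfl⟩
    obtain ⟨q, hq⟩ : ∃ q, q = F.co σ 1 (X.1 () w) := ⟨_, rfl⟩
    rw [← hp, ← hq] at h3
    rw [h3, hBadd, hBsm, hBsm] at h2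
    have h4 : w1 * B (F.e σ 0) w + w2 * B (F.e σ 1) w = 0 := by
      have h5 := hiso
      nth_rw 1 [hw] at h5
      rw [hBadd, hBsm, hBsm] at h5
      exact h5
    have h5 : p * w2 = q * w1 := by
      rcases hnd with h6 | h6
      · apply mul_right_cancel₀ h6
        linear_combination w2 * h2 - q * h4
      · apply mul_right_cancel₀ h6
        linear_combination p * h4 - w1 * h2
    rw [Submodule.mem_span_singleton]
    rcases hw12 with h6 | h6
    · refine ⟨p / w1, ?_⟩
      rw [h3, hw, smul_add, smul_smul, smul_smul, div_mul_cancel₀ p h6]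
      congr 2
      field_simp
      rw [h5, mul_comm]
    · refine ⟨q / w2, ?_⟩
      rw [h3, hw, smul_add, smul_smul, smul_smul, div_mul_cancel₀ q h6]
      congr 2
      field_simp
      rw [← h5, mul_comm]
  have hle : Submodule.span ℂ {w} ≤ Submodule.span ℂ (Set.range (F.e σ)) := by
    rw [Submodule.span_singleton_le_iff_mem, hw]
    exact Submodule.add_mem _ (Submodule.smul_mem _ _ (Submodule.subset_span ⟨0, rfl⟩))
      (Submodule.smul_mem _ _ (Submodule.subset_span ⟨1, rfl⟩))
  rcases UF.irred_place (I := Unit) (fun _ => 1) (κ := fun _ => Fin A.g ⊕ Fin A.g)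
      (fun _ => pData A) (k := 0) (0 : MultilinearMap ℂ (fun _ : Fin (2 * 0) =>
        HW (fun _ : Unit => Fin A.g ⊕ Fin A.g) (fun _ => 1)) ℂ) () F Complex.two_pi_I_ne_zero
      (fun v _ => ⟨0, by simp⟩) (fun v _ => by
        rw [_root_.zero_apply]; exact isAlgebraic_zero) σ _ hle hst with h1 | h1
  · rw [Submodule.span_singleton_eq_bot] at h1
    exact hw0 h1
  · have h2 : F.e σ 0 ∈ Submodule.span ℂ {w} := by
      rw [h1]; exact Submodule.subset_span ⟨0, rfl⟩
    have h3 : F.e σ 1 ∈ Submodule.span ℂ {w} := by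
      rw [h1]; exact Submodule.subset_span ⟨1, rfl⟩
    obtain ⟨s, hs⟩ := Submodule.mem_span_singleton.mp h2
    obtain ⟨t, ht⟩ := Submodule.mem_span_singleton.mp h3
    have a1 := congrArg (F.co σ 0) hs
    have a2 := congrArg (F.co σ 1) hs
    have a3 := congrArg (F.co σ 1) ht
    rw [map_smul, hco1, F.co_e, if_pos ⟨rfl, rfl⟩, smul_eq_mul] at a1
    rw [map_smul, hco2, F.co_e, if_neg (fun h => absurd h.2 (by decide)), smul_eq_mul] at a2
    rw [map_smul, hco2, F.co_e, if_pos ⟨rfl, rfl⟩, smul_eq_mul] at a3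
    rcases mul_eq_zero.mp a2 with h4 | h4
    · rw [h4, zero_mul] at a1
      exact zero_ne_one a1
    · rw [h4, mul_zero] at a3
      exact zero_ne_one a3

end quat

end Pool.Agent.Helper71.AF

namespace Pool.Agent.GPC

open Module NumberField Pool.Agent.Helper7 Pool.Agent.Helper71.AF

/-- `dim A = [K : ℚ] m` with `m ≠ 1` in the quaternionic case. -/
theorem quat_rank (A : AbVar) (K : Type) [Field K] [NumberField K] [NumberField.IsCMField K]
    (ρ : K → A.H1 → A.H1) (j : A.H1 → A.H1) (b : K) (C : A.IsQuatMult K ρ j b) :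
    ∃ m, finrank ℚ K * m = A.g ∧ m ≠ 1 := by
  rcases Nat.eq_zero_or_pos A.g with hg | hg
  · exact ⟨0, by rw [mul_zero, hg], by norm_num⟩
  have hrosJ : ∀ u v, (pData A).ψ (IsLinearMap.mk' j C.endo_j.linear u) v =
      - (pData A).ψ u (IsLinearMap.mk' j C.endo_j.linear v) := fun u v => C.rosati_j u v
  obtain ⟨m, hm⟩ := exists_even_rank A hg K (mkRho ρ C.one C.mul C.add C.endo)
    (IsLinearMap.mk' j C.endo_j.linear) b C.endo C.endo_j C.conj_j C.sq_j hrosJ C.ne_zero
  have h1 : finrank ℚ K * m = A.g := by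
    have h2 : 2 * (finrank ℚ K * m) = 2 * A.g := by rw [← hm]; ring
    omega
  refine ⟨m, h1, ?_⟩
  rintro rfl
  exact rank_ne_two A K (mkRho ρ C.one C.mul C.add C.endo)
    (IsLinearMap.mk' j C.endo_j.linear) b C.endo C.endo_j C.conj_j C.sq_j
    (fun x u v => C.rosati x u v) hrosJ C.ne_zero C.centralizer (by rw [← hm])

end Pool.Agent.GPC
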