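import Mathlib

/-!
Division algebras with an involution: a maximal commutative set of symmetric elements and its
centraliser.
-/

namespace Pool.Agent.Helper71.AF

/-- an anti-involution -/
structure AInv {D : Type*} [Ring D] (s : D → D) : Prop where
  add : ∀ x y, s (x + y) = s x + s y
  mul : ∀ x y, s (x * y) = s y * s x
  inv : ∀ x, s (s x) = x

section basic

variable {D : Type*} [DivisionRing D] {s : D → D} (h : AInv s)

include h

lemma AInv.zero : s 0 = 0 := by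
  have h1 := h.add 0 0
  rw [add_zero] at h1
  exact left_eq_add.mp h1

lemma AInv.neg (x : D) : s (-x) = - s x := by
  have h1 := h.add x (-x)
  rw [add_neg_cancel, h.zero] at h1
  exact (neg_eq_of_add_eq_zero_right h1.symm).symm

lemma AInv.sub (x y : D) : s (x - y) = s x - s y := by
  rw [sub_eq_add_neg, h.add, h.neg, ← sub_eq_add_neg]

lemma AInv.one : s 1 = 1 := by
  have h1 := h.mul 1 (s 1)
  rw [one_mul, h.inv, one_mul] at h1
  exact h1.symm

lemma AInv.map_inv (x : D) : s x⁻¹ = (s x)⁻¹ := by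
  by_cases hx : x = 0
  · subst hx
    rw [inv_zero, h.zero, inv_zero]
  · apply eq_inv_of_mul_eq_one_left
    rw [← h.mul, mul_inv_cancel₀ hx, h.one]

/-- a maximal commutative set of symmetric elements -/
lemma AInv.exists_max : ∃ T : Subfield D, (∀ x ∈ T, s x = x) ∧
    (∀ x ∈ T, ∀ y ∈ T, x * y = y * x) ∧
    ∀ z, s z = z → (∀ x ∈ T, x * z = z * x) → z ∈ T := by
  obtain ⟨m, hm⟩ := zorn_subset {T : Set D | (∀ x ∈ T, s x = x) ∧
    (∀ x ∈ T, ∀ y ∈ T, x * y = y * x)} (by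
      intro c hc hchain
      refine ⟨⋃₀ c, ⟨?_, ?_⟩, fun t ht => Set.subset_sUnion_of_mem ht⟩
      · rintro x ⟨t, ht, hx⟩
        exact (hc ht).1 x hx
      · rintro x ⟨t, ht, hx⟩ y ⟨u, hu, hy⟩
        rcases hchain.total ht hu with h1 | h1
        · exact (hc hu).2 x (h1 hx) y hy
        · exact (hc ht).2 x hx y (h1 hy))
  have hself : ∀ x ∈ m, s x = x := hm.prop.1
  have hcomm : ∀ x ∈ m, ∀ y ∈ m, x * y = y * x := hm.prop.2
  have hmax : ∀ z, s z = z → (∀ x ∈ m, x * z = z * x) → z ∈ m := by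
    intro z hz hzc
    have h1 : insert z m ∈ {T : Set D | (∀ x ∈ T, s x = x) ∧
        (∀ x ∈ T, ∀ y ∈ T, x * y = y * x)} := by
      constructor
      · rintro x (rfl | hx)
        · exact hz
        · exact hself x hx
      · rintro x (rfl | hx) y (rfl | hy)
        · rfl
        · exact (hzc y hy).symm
        · exact hzc x hx
        · exact hcomm x hx y hy
    exact hm.le_of_ge h1 (Set.subset_insert z m) (Set.mem_insert z m)
  refine ⟨{ carrier := m
            mul_mem' := ?_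
            one_mem' := ?_
            add_mem' := ?_
            zero_mem' := ?_
            neg_mem' := ?_
            inv_mem' := ?_ }, hself, hcomm, hmax⟩
  · intro x y hx hy
    apply hmax
    · rw [h.mul, hself x hx, hself y hy, hcomm x hx y hy]
    · intro z hz
      rw [← mul_assoc, hcomm z hz x hx, mul_assoc, hcomm z hz y hy, mul_assoc]
  · exact hmax 1 h.one fun x _ => by rw [one_mul, mul_one]
  · intro x y hx hy
    apply hmax
    · rw [h.add, hself x hx, hself y hy]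
    · intro z hz
      rw [mul_add, add_mul, hcomm z hz x hx, hcomm z hz y hy]
  · exact hmax 0 h.zero fun x _ => by rw [zero_mul, mul_zero]
  · intro x hx
    apply hmax
    · rw [h.neg, hself x hx]
    · intro z hz
      rw [mul_neg, neg_mul, hcomm z hz x hx]
  · intro x hx
    apply hmax
    · rw [h.map_inv, hself x hx]
    · intro z hz
      have h1 : Commute z x := hcomm z hz x hx
      exact h1.inv_right₀

end basic

section tri

variable {D : Type*} [DivisionRing D] [CharZero D] {s : D → D} (h : AInv s)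

include h

omit h [CharZero D] in
lemma two_inv_comm (x : D) : (2 : D)⁻¹ * x = x * 2⁻¹ :=
  ((Commute.ofNat_left 2 x).inv_left₀).eq

omit h in
lemma half_add (x y : D) : x = 2⁻¹ * (x + y) + 2⁻¹ * (x - y) := by
  have h2 : (2 : D) ≠ 0 := two_ne_zero
  have h1 : 2⁻¹ * (x + y) + 2⁻¹ * (x - y) = 2⁻¹ * (2 * x) := by
    rw [← mul_add]
    congr 1
    rw [two_mul]; abel
  rw [h1, ← mul_assoc, inv_mul_cancel₀ h2, one_mul]

/-- the structure of the centraliser -/
theorem AInv.trichotomy : ∃ T : Subfield D, (∀ x ∈ T, s x = x) ∧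
    (∀ x ∈ T, ∀ y ∈ T, x * y = y * x) ∧
    ((∀ f, (∀ x ∈ T, x * f = f * x) → f ∈ T) ∨
     ∃ L : Subfield D, T ≤ L ∧ (∀ x ∈ L, ∀ y ∈ L, x * y = y * x) ∧ (∀ x ∈ L, s x ∈ L) ∧
      (∃ i ∈ L, i ≠ 0 ∧ s i = -i) ∧
      ((∀ f, (∀ x ∈ T, x * f = f * x) → f ∈ L) ∨
       ∃ j, s j = -j ∧ j ≠ 0 ∧ j * j ∈ L ∧ (∀ x ∈ L, j * x = s x * j) ∧
        ∀ f, (∀ x ∈ T, x * f = f * x) → ∃ x ∈ L, ∃ y ∈ L, f = x + y * j)) := by
  obtain ⟨T, hself, hcomm, hmax⟩ := h.exists_max
  refine ⟨T, hself, hcomm, ?_⟩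
  have hs : ∀ f, (∀ x ∈ T, x * f = f * x) → ∀ x ∈ T, x * s f = s f * x := by
    intro f hf x hx
    have h1 := congrArg s (hf x hx)
    rw [h.mul, h.mul, hself x hx] at h1
    exact h1.symm
  have hadd : ∀ f g, (∀ x ∈ T, x * f = f * x) → (∀ x ∈ T, x * g = g * x) →
      ∀ x ∈ T, x * (f + g) = (f + g) * x := by
    intro f g hf hg x hx
    rw [mul_add, add_mul, hf x hx, hg x hx]
  have hsub : ∀ f g, (∀ x ∈ T, x * f = f * x) → (∀ x ∈ T, x * g = g * x) →
      ∀ x ∈ T, x * (f - g) = (f - g) * x := by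
    intro f g hf hg x hx
    rw [mul_sub, sub_mul, hf x hx, hg x hx]
  have hmul : ∀ f g, (∀ x ∈ T, x * f = f * x) → (∀ x ∈ T, x * g = g * x) →
      ∀ x ∈ T, x * (f * g) = (f * g) * x := by
    intro f g hf hg x hx
    rw [← mul_assoc, hf x hx, mul_assoc, hg x hx, mul_assoc]
  have hinv : ∀ f, (∀ x ∈ T, x * f = f * x) → ∀ x ∈ T, x * f⁻¹ = f⁻¹ * x := by
    intro f hf x hx
    have h1 : Commute x f := hf x hx
    exact h1.inv_right₀.eq
  have h2T : (2 : D)⁻¹ ∈ T := T.inv_mem (ofNat_mem T 2)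
  by_cases h1 : ∀ f, (∀ x ∈ T, x * f = f * x) → f ∈ T
  · exact Or.inl h1
  right
  push Not at h1
  obtain ⟨f0, hf0, hf0T⟩ := h1
  -- a skew element
  obtain ⟨i, hiC, hi0, hsi⟩ : ∃ i, (∀ x ∈ T, x * i = i * x) ∧ i ≠ 0 ∧ s i = -i := by
    refine ⟨f0 - s f0, hsub _ _ hf0 (hs _ hf0), ?_, ?_⟩
    · intro h2
      exact hf0T (hmax f0 (sub_eq_zero.mp h2).symm hf0)
    · rw [h.sub, h.inv, neg_sub]
  have hsii : s i⁻¹ = - i⁻¹ := by rw [h.map_inv, hsi, inv_neg]
  obtain ⟨L, hLmem⟩ : ∃ L : Subfield D, ∀ f, f ∈ L ↔ (∀ x ∈ T, x * f = f * x) ∧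
      i * f = f * i := by
    refine ⟨{ carrier := {f | (∀ x ∈ T, x * f = f * x) ∧ i * f = f * i}
              mul_mem' := ?_
              one_mem' := ⟨fun x _ => by rw [one_mul, mul_one], by rw [one_mul, mul_one]⟩
              add_mem' := ?_
              zero_mem' := ⟨fun x _ => by rw [zero_mul, mul_zero], by rw [zero_mul, mul_zero]⟩
              neg_mem' := ?_
              inv_mem' := ?_ }, fun f => Iff.rfl⟩
    · intro f g hf hg
      refine ⟨hmul _ _ hf.1 hg.1, ?_⟩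
      rw [← mul_assoc, hf.2, mul_assoc, hg.2, mul_assoc]
    · intro f g hf hg
      refine ⟨hadd _ _ hf.1 hg.1, ?_⟩
      rw [mul_add, add_mul, hf.2, hg.2]
    · intro f hf
      refine ⟨fun x hx => ?_, ?_⟩
      · rw [mul_neg, neg_mul, hf.1 x hx]
      · rw [mul_neg, neg_mul, hf.2]
    · intro f hf
      refine ⟨hinv _ hf.1, ?_⟩
      have h1 : Commute i f := hf.2
      exact h1.inv_right₀.eq
  have hTL : T ≤ L := fun x hx => (hLmem x).mpr ⟨fun y hy => hcomm y hy x hx, (hiC x hx).symm⟩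
  have hiL : i ∈ L := (hLmem i).mpr ⟨hiC, rfl⟩
  have hsL : ∀ x ∈ L, s x ∈ L := by
    intro x hx
    rw [hLmem] at hx ⊢
    refine ⟨hs x hx.1, ?_⟩
    have h1 := congrArg s hx.2
    rw [h.mul, h.mul, hsi, mul_neg, neg_mul] at h1
    exact (neg_injective h1).symm
  have hform : ∀ f ∈ L, ∃ a ∈ T, ∃ b ∈ T, f = a + b * i := by
    intro f hf
    have hsf := hsL f hf
    refine ⟨2⁻¹ * (f + s f), T.mul_mem h2T (hmax _ (by rw [h.add, h.inv, add_comm])
      (hadd _ _ ((hLmem f).mp hf).1 ((hLmem _).mp hsf).1)), 2⁻¹ * ((f - s f) * i⁻¹),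
      T.mul_mem h2T (hmax _ ?_ ?_), ?_⟩
    · rw [h.mul, hsii, h.sub, h.inv]
      have h3 : Commute i (f - s f) := by
        have h4 := (hLmem _).mp (L.sub_mem hf hsf)
        exact h4.2
      have h5 := h3.inv_left₀.eq
      rw [← h5, ← neg_sub f (s f), mul_neg, neg_mul, neg_neg]
    · exact hmul _ _ (hsub _ _ ((hLmem f).mp hf).1 ((hLmem _).mp hsf).1) (hinv _ hiC)
    · rw [mul_assoc, mul_assoc, inv_mul_cancel₀ hi0, mul_one]
      exact half_add f (s f)
  have hLcomm : ∀ x ∈ L, ∀ y ∈ L, x * y = y * x := by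
    intro x hx y hy
    obtain ⟨a, ha, b, hb, rfl⟩ := hform x hx
    rw [add_mul, mul_add, ((hLmem y).mp hy).1 a ha, mul_assoc, ((hLmem y).mp hy).2, ← mul_assoc,
      ((hLmem y).mp hy).1 b hb, mul_assoc]
  refine ⟨L, hTL, hLcomm, hsL, ⟨i, hiL, hi0, hsi⟩, ?_⟩
  by_cases h3 : ∀ f, (∀ x ∈ T, x * f = f * x) → f ∈ L
  · exact Or.inl h3
  right
  push Not at h3
  obtain ⟨f1, hf1, hf1L⟩ := h3
  -- decomposition
  have hdec : ∀ f, (∀ x ∈ T, x * f = f * x) → ∃ g ∈ L, ∃ k, (∀ x ∈ T, x * k = k * x) ∧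
      i * k = - (k * i) ∧ f = g + k := by
    intro f hf
    have hii : ∀ z : D, i * z * i⁻¹ * i = i * z := fun z => by
      rw [mul_assoc, inv_mul_cancel₀ hi0, mul_one]
    have hcc : i * i * f = f * (i * i) := by
      have h4 : i * i ∈ T := by
        apply hmax
        · rw [h.mul, hsi, neg_mul_neg]
        · exact hmul _ _ hiC hiC
      exact hf _ h4
    have hC1 : ∀ x ∈ T, x * (i * f * i⁻¹) = (i * f * i⁻¹) * x :=
      hmul _ _ (hmul _ _ hiC hf) (hinv _ hiC)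
    have hii2 : i * (i * f * i⁻¹) = f * i := by
      rw [mul_assoc i f, ← mul_assoc i i, ← mul_assoc (i * i) f, hcc, mul_assoc f, mul_assoc i i,
        mul_inv_cancel₀ hi0, mul_one]
    refine ⟨2⁻¹ * (f + i * f * i⁻¹), L.mul_mem (hTL h2T) ((hLmem _).mpr
      ⟨hadd _ _ hf hC1, ?_⟩), 2⁻¹ * (f - i * f * i⁻¹), ?_, ?_, half_add _ _⟩
    · rw [mul_add, add_mul, hii, hii2, add_comm]
    · have h5 : ∀ x ∈ T, x * (2 : D)⁻¹ = 2⁻¹ * x := fun x _ => (two_inv_comm x).symm
      exact hmul _ _ h5 (hsub _ _ hf hC1)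
    · have h6 : i * (f - i * f * i⁻¹) = - ((f - i * f * i⁻¹) * i) := by
        rw [mul_sub, sub_mul, hii, hii2, neg_sub]
      generalize f - i * f * i⁻¹ = z at h6 ⊢
      rw [← mul_assoc, ← two_inv_comm i, mul_assoc, h6, mul_neg, mul_assoc]
  obtain ⟨g, hg, k, hkC, hki, hfk⟩ := hdec f1 hf1
  have hk0 : k ≠ 0 := by
    rintro rfl
    rw [add_zero] at hfk
    rw [hfk] at hf1L
    exact hf1L hg
  have hnot : ∀ z, (∀ x ∈ T, x * z = z * x) → i * z = - (z * i) → s z = z → z = 0 := by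
    intro z hz hiz hsz
    have hzT := hmax z hsz hz
    rw [hiC z hzT] at hiz
    have h5 : (2 : D) * (i * z) = 0 := by
      rw [two_mul]
      nth_rw 2 [hiz]
      exact add_neg_cancel _
    have h6 := (mul_eq_zero.mp h5).resolve_left two_ne_zero
    exact (mul_eq_zero.mp h6).resolve_left hi0
  have hski : i * s k = - (s k * i) := by
    have h5 := congrArg s hki
    rw [h.neg, h.mul, h.mul, hsi, mul_neg, neg_mul, neg_neg] at h5
    rw [← h5]
  obtain ⟨j, hj⟩ : ∃ j, j = k - s k := ⟨_, rfl⟩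
  have hjC : ∀ x ∈ T, x * j = j * x := by
    rw [hj]; exact hsub _ _ hkC (hs _ hkC)
  have hsj : s j = -j := by rw [hj, h.sub, h.inv, neg_sub]
  have hj0 : j ≠ 0 := by
    intro h5
    rw [hj] at h5
    exact hk0 (hnot k hkC hki (sub_eq_zero.mp h5).symm)
  have hij : i * j = - (j * i) := by
    rw [hj, mul_sub, sub_mul, hki, hski]
    abel
  refine ⟨j, hsj, hj0, hTL (hmax _ ?_ (hmul _ _ hjC hjC)), ?_, ?_⟩
  · rw [h.mul, hsj, neg_mul_neg]
  · intro x hx
    obtain ⟨a, ha, b, hb, rfl⟩ := hform x hx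
    rw [h.add, h.mul, hsi, hself a ha, hself b hb, mul_add, add_mul, ← hjC a ha, ← mul_assoc,
      ← hjC b hb, neg_mul, neg_mul, mul_assoc i b j, hjC b hb, ← mul_assoc i j b, hij, neg_mul,
      neg_neg, mul_assoc j i b, ← hiC b hb, ← mul_assoc, ← hjC b hb]
  · intro f hf
    obtain ⟨x, hx, y, hyC, hyi, rfl⟩ := hdec f hf
    refine ⟨x, hx, y * j⁻¹, (hLmem _).mpr ⟨hmul _ _ hyC (hinv _ hjC), ?_⟩, ?_⟩
    · have h5 : i * j⁻¹ = - (j⁻¹ * i) := by
        have h6 := congrArg (fun z => j⁻¹ * z * j⁻¹) hij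
        simp only [mul_neg, neg_mul] at h6
        rw [← mul_assoc j⁻¹ j i, inv_mul_cancel₀ hj0, one_mul, mul_assoc, mul_assoc,
          mul_inv_cancel₀ hj0, mul_one] at h6
        rw [h6, neg_neg]
      rw [← mul_assoc, hyi, neg_mul, mul_assoc, h5, mul_neg, neg_neg, mul_assoc]
    · rw [mul_assoc, inv_mul_cancel₀ hj0, mul_one]

end tri

end Pool.Agent.Helper71.AF
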